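import Mathlib
import Pool.Agent.H548.WM.Hyp

/-!
The blow-up of the projective space along the twisted cubic.  Definitions.
-/

namespace Pool.Agent.H548.TC

/-- The two equations of type `(1,1)` in the product of the projective space (coordinates `x`)
and the projective plane (coordinates `y`). -/
def Inc {R : Type*} [CommRing R] (x : Fin 4 → R) (y : Fin 3 → R) : Prop :=
  x 0 * y 0 + x 1 * y 1 + x 2 * y 2 = 0 ∧ x 1 * y 0 + x 2 * y 1 + x 3 * y 2 = 0

/-- The three quadratic forms which define the twisted cubic. -/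
def hes {R : Type*} [CommRing R] (x : Fin 4 → R) : Fin 3 → R :=
  ![x 1 * x 3 - x 2 ^ 2, x 1 * x 2 - x 0 * x 3, x 0 * x 2 - x 1 ^ 2]

/-- Primitive vectors (Bezout form). -/
def Prim {m : ℕ} (v : Fin m → ℤ) : Prop := ∃ u : Fin m → ℤ, ∑ i, u i * v i = 1

end Pool.Agent.H548.TC
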