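import Mathlib
import Pool.Agent.H548.TC.Stm

/-! Counting vectors of one residue class in regions. -/

namespace Pool.Agent.H548.TC

open Finset
open Pool.Agent.H548.WM (ht bx le_ht le_ht' ht_le exists_ht mem_bx)

theorem dist_card {α : Type*} (S : Finset α) (f : α → ℤ) (g L : ℕ) (hg : 1 ≤ g)
    (hd : ∀ x ∈ S, ∀ z ∈ S, (g : ℤ) ∣ f x - f z) (hl : ∀ x ∈ S, ∀ z ∈ S, |f x - f z| ≤ L) :
    (S.image f).card ≤ L / g + 1 := by
  rcases S.eq_empty_or_nonempty with rfl | hne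
  · simp
  have hne' : (S.image f).Nonempty := hne.image f
  obtain ⟨x₀, hx₀, hm⟩ := mem_image.1 ((S.image f).min'_mem hne')
  set m := (S.image f).min' hne' with hmdef
  have hg0 : (0 : ℤ) < g := by exact_mod_cast hg
  have hmin : ∀ t ∈ S.image f, m ≤ t := fun t ht => Finset.min'_le _ _ ht
  have key : ∀ t ∈ S.image f, ∃ k : ℕ, t = m + g * k ∧ k ≤ L / g := by
    intro t ht
    obtain ⟨x, hx, rfl⟩ := mem_image.1 ht
    obtain ⟨k, hk⟩ := hd x hx x₀ hx₀
    rw [hm] at hk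
    have h1 := hmin _ ht
    have h2 := hl x hx x₀ hx₀
    rw [hm, hk, abs_mul, abs_of_pos hg0] at h2
    have hk0 : 0 ≤ k := by
      by_contra hc
      push Not at hc
      have : (g : ℤ) * k < 0 := mul_neg_of_pos_of_neg hg0 hc
      linarith
    obtain ⟨n, rfl⟩ := Int.eq_ofNat_of_zero_le hk0
    refine ⟨n, by linarith, ?_⟩
    rw [Nat.le_div_iff_mul_le (by omega)]
    rw [Nat.abs_cast] at h2
    have h3 : g * n ≤ L := by exact_mod_cast h2
    linarith
  choose! k hk hkL using key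
  have h1 := Finset.card_le_card_of_injOn (s := S.image f) (t := range (L / g + 1)) k
    (fun t ht => by
      rw [mem_coe, mem_range]
      exact Nat.lt_succ_of_le (hkL t (by exact_mod_cast ht)))
    (fun t ht t' ht' h => by
      rw [hk t (by exact_mod_cast ht), hk t' (by exact_mod_cast ht'), h])
  rwa [card_range] at h1

theorem fib_card {α : Type*} (S : Finset α) (f : α → ℤ) (n r : ℕ) (h1 : (S.image f).card ≤ n)
    (h2 : ∀ b, (S.filter fun x => f x = b).card ≤ r) : S.card ≤ r * n :=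
  (Finset.card_le_mul_card_image S r fun b _ => h2 b).trans (Nat.mul_le_mul_left _ h1)

theorem nest4 {α : Type*} (S : Finset α) (f0 f1 f2 f3 : α → ℤ) (g L0 L1 L2 L3 : ℕ) (hg : 1 ≤ g)
    (hinj : ∀ x ∈ S, ∀ z ∈ S, f0 x = f0 z → f1 x = f1 z → f2 x = f2 z → f3 x = f3 z → x = z)
    (d0 : ∀ x ∈ S, ∀ z ∈ S, (g : ℤ) ∣ f0 x - f0 z)
    (d1 : ∀ x ∈ S, ∀ z ∈ S, (g : ℤ) ∣ f1 x - f1 z)
    (d2 : ∀ x ∈ S, ∀ z ∈ S, (g : ℤ) ∣ f2 x - f2 z)
    (d3 : ∀ x ∈ S, ∀ z ∈ S, (g : ℤ) ∣ f3 x - f3 z)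
    (l0 : ∀ x ∈ S, ∀ z ∈ S, |f0 x - f0 z| ≤ L0)
    (l1 : ∀ x ∈ S, ∀ z ∈ S, f0 x = f0 z → |f1 x - f1 z| ≤ L1)
    (l2 : ∀ x ∈ S, ∀ z ∈ S, f0 x = f0 z → f1 x = f1 z → |f2 x - f2 z| ≤ L2)
    (l3 : ∀ x ∈ S, ∀ z ∈ S, f0 x = f0 z → f1 x = f1 z → f2 x = f2 z → |f3 x - f3 z| ≤ L3) :
    S.card ≤ (L3 / g + 1) * (L2 / g + 1) * (L1 / g + 1) * (L0 / g + 1) := by
  have h3 : ∀ b0 b1 b2, ((((S.filter fun x => f0 x = b0).filter fun x => f1 x = b1).filter
      fun x => f2 x = b2)).card ≤ L3 / g + 1 := by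
    intro b0 b1 b2
    set T := (((S.filter fun x => f0 x = b0).filter fun x => f1 x = b1).filter
      fun x => f2 x = b2) with hT
    have hmem : ∀ x ∈ T, x ∈ S ∧ f0 x = b0 ∧ f1 x = b1 ∧ f2 x = b2 := by
      intro x hx
      simp only [hT, mem_filter] at hx
      tauto
    have hc : (T.image f3).card = T.card := by
      apply Finset.card_image_of_injOn
      intro x hx z hz h
      obtain ⟨a, a0, a1, a2⟩ := hmem x hx
      obtain ⟨c, c0, c1, c2⟩ := hmem z hz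
      exact hinj x a z c (a0.trans c0.symm) (a1.trans c1.symm) (a2.trans c2.symm) h
    rw [← hc]
    apply dist_card T f3 g L3 hg
    · intro x hx z hz
      exact d3 x (hmem x hx).1 z (hmem z hz).1
    · intro x hx z hz
      obtain ⟨a, a0, a1, a2⟩ := hmem x hx
      obtain ⟨c, c0, c1, c2⟩ := hmem z hz
      exact l3 x a z c (a0.trans c0.symm) (a1.trans c1.symm) (a2.trans c2.symm)
  have h2 : ∀ b0 b1, ((S.filter fun x => f0 x = b0).filter fun x => f1 x = b1).card ≤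
      (L3 / g + 1) * (L2 / g + 1) := by
    intro b0 b1
    set T := ((S.filter fun x => f0 x = b0).filter fun x => f1 x = b1) with hT
    have hmem : ∀ x ∈ T, x ∈ S ∧ f0 x = b0 ∧ f1 x = b1 := by
      intro x hx
      simp only [hT, mem_filter] at hx
      tauto
    apply fib_card T f2 _ _ _ (h3 b0 b1)
    apply dist_card T f2 g L2 hg
    · intro x hx z hz
      exact d2 x (hmem x hx).1 z (hmem z hz).1
    · intro x hx z hz
      obtain ⟨a, a0, a1⟩ := hmem x hx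
      obtain ⟨c, c0, c1⟩ := hmem z hz
      exact l2 x a z c (a0.trans c0.symm) (a1.trans c1.symm)
  have h1 : ∀ b0, (S.filter fun x => f0 x = b0).card ≤
      (L3 / g + 1) * (L2 / g + 1) * (L1 / g + 1) := by
    intro b0
    set T := (S.filter fun x => f0 x = b0) with hT
    have hmem : ∀ x ∈ T, x ∈ S ∧ f0 x = b0 := by
      intro x hx
      simp only [hT, mem_filter] at hx
      tauto
    apply fib_card T f1 _ _ _ (h2 b0)
    apply dist_card T f1 g L1 hg
    · intro x hx z hz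
      exact d1 x (hmem x hx).1 z (hmem z hz).1
    · intro x hx z hz
      obtain ⟨a, a0⟩ := hmem x hx
      obtain ⟨c, c0⟩ := hmem z hz
      exact l1 x a z c (a0.trans c0.symm)
  exact fib_card S f0 _ _ (dist_card S f0 g L0 hg d0 l0) h1

theorem quo_le {A g K : ℕ} (hg : 1 ≤ g) (hgA : g ≤ 4 * A) (hK : K = 2 * A) :
    (((K / g + 1 : ℕ)) : ℝ) ≤ 6 * A / g := by
  have hg' : (0 : ℝ) < g := by exact_mod_cast hg
  have h1 : ((K / g : ℕ) : ℝ) ≤ (K : ℝ) / g := Nat.cast_div_le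
  have h2 : (g : ℝ) ≤ 4 * A := by exact_mod_cast hgA
  push_cast
  have h3 : (1 : ℝ) ≤ 4 * A / g := by
    rw [le_div_iff₀ hg']; linarith
  have h4 : (K : ℝ) / g = 2 * A / g := by rw [hK]; push_cast; ring
  have h5 : (6 * A / g : ℝ) = 2 * A / g + 4 * A / g := by ring
  linarith

theorem quo_le' {A B g : ℕ} (hg : 1 ≤ g) (hA : 1 ≤ A) (hAB : A ≤ B) :
    (((16 * g * B / A / g + 1 : ℕ)) : ℝ) ≤ 17 * B / A := by
  have hg' : (0 : ℝ) < g := by exact_mod_cast hg
  have hA' : (0 : ℝ) < A := by exact_mod_cast hA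
  have h1 : ((16 * g * B / A / g : ℕ) : ℝ) ≤ ((16 * g * B / A : ℕ) : ℝ) / g := Nat.cast_div_le
  have h2 : ((16 * g * B / A : ℕ) : ℝ) ≤ ((16 * g * B : ℕ) : ℝ) / A := Nat.cast_div_le
  have h3 : ((16 * g * B : ℕ) : ℝ) / A / g = 16 * B / A := by
    push_cast
    field_simp
  have h4 : ((16 * g * B / A / g : ℕ) : ℝ) ≤ 16 * B / A := by
    rw [← h3]
    exact h1.trans (by gcongr)
  have h5 : (1 : ℝ) ≤ B / A := by
    rw [le_div_iff₀ hA']
    have : (A : ℝ) ≤ B := by exact_mod_cast hAB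
    linarith
  push_cast
  have h6 : (17 * B / A : ℝ) = 16 * B / A + B / A := by ring
  linarith

/-- One residue class. -/
theorem one_class (T : Finset (Fin 4 → ℤ)) (A B g : ℕ) (hA : 1 ≤ A) (hAB : A ≤ B) (hg : 1 ≤ g)
    (hgA : g ≤ 4 * A)
    (hT : ∀ x ∈ T, ht x ≤ A ∧ A ≤ 2 * ht x ∧ ht (hes x) ≤ g * B)
    (hd : ∀ x ∈ T, ∀ z ∈ T, ∀ k, (g : ℤ) ∣ x k - z k) :
    (T.card : ℝ) ≤ 103752 * (B : ℝ) ^ 2 / (g : ℝ) ^ 2 := by
  classical
  have hg' : (0 : ℝ) < g := by exact_mod_cast hg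
  have hA' : (0 : ℝ) < A := by exact_mod_cast hA
  have hB' : (0 : ℝ) < B := by exact_mod_cast (hA.trans hAB)
  have hAZ : (0 : ℤ) < A := by exact_mod_cast hA
  have hc : ∀ x ∈ T, ∀ k, |x k| ≤ (A : ℤ) := fun x hx k =>
    (le_ht' x k).trans (by exact_mod_cast (hT x hx).1)
  have hdiff : ∀ x ∈ T, ∀ z ∈ T, ∀ k, |x k - z k| ≤ ((2 * A : ℕ) : ℤ) := by
    intro x hx z hz k
    have h1 := hc x hx k
    have h2 := hc z hz k
    have h3 := abs_sub (x k) (z k)
    push_cast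
    linarith
  have hh : ∀ x ∈ T, ∀ k, |hes x k| ≤ ((g * B : ℕ) : ℤ) := fun x hx k =>
    (le_ht' (hes x) k).trans (by exact_mod_cast (hT x hx).2.2)
  -- the step
  have hstep : ∀ (c d : ℤ) (h h' : ℤ), (A : ℤ) ≤ 8 * |c| → |h| ≤ ((g * B : ℕ) : ℤ) →
      |h'| ≤ ((g * B : ℕ) : ℤ) → c * d = h - h' → |d| ≤ ((16 * g * B / A : ℕ) : ℤ) := by
    intro c d h h' h1 h2 h3 h4
    have h5 : |c| * |d| ≤ 2 * ((g * B : ℕ) : ℤ) := by
      rw [← abs_mul, h4]
      have := abs_sub h h'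
      linarith
    have h6 : (A : ℤ) * |d| ≤ 16 * ((g * B : ℕ) : ℤ) := by
      have := abs_nonneg d
      nlinarith
    obtain ⟨n, hn⟩ := Int.eq_ofNat_of_zero_le (abs_nonneg d)
    rw [hn] at h6 ⊢
    have h7 : A * n ≤ 16 * (g * B) := by exact_mod_cast h6
    have h8 : n ≤ 16 * g * B / A := by
      rw [Nat.le_div_iff_mul_le (by omega)]
      nlinarith
    exact_mod_cast h8
  set T1 := T.filter fun x => (A : ℤ) ≤ 8 * |x 0| with hT1
  set T2 := T.filter fun x => (A : ℤ) ≤ 8 * |x 3| with hT2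
  set T3 := T.filter fun x => 8 * |x 0| < (A : ℤ) ∧ 8 * |x 3| < (A : ℤ) with hT3
  have hcov : T ⊆ T1 ∪ (T2 ∪ T3) := by
    intro x hx
    simp only [hT1, hT2, hT3, mem_union, mem_filter]
    by_cases h1 : (A : ℤ) ≤ 8 * |x 0|
    · exact Or.inl ⟨hx, h1⟩
    · by_cases h2 : (A : ℤ) ≤ 8 * |x 3|
      · exact Or.inr (Or.inl ⟨hx, h2⟩)
      · push Not at h1 h2
        exact Or.inr (Or.inr ⟨hx, h1, h2⟩)
  have e1 : (T1.card : ℝ) ≤ 10404 * (B : ℝ) ^ 2 / (g : ℝ) ^ 2 := by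
    have hm : ∀ x ∈ T1, x ∈ T ∧ (A : ℤ) ≤ 8 * |x 0| := fun x hx => by
      rw [hT1, mem_filter] at hx; exact hx
    have h := nest4 T1 (fun x => x 0) (fun x => x 1) (fun x => x 2) (fun x => x 3) g (2 * A)
      (2 * A) (16 * g * B / A) (16 * g * B / A) hg
      (fun x _ z _ h0 h1 h2 h3 => by
        funext k
        fin_cases k
        · exact h0
        · exact h1
        · exact h2
        · exact h3)
      (fun x hx z hz => hd x (hm x hx).1 z (hm z hz).1 0)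
      (fun x hx z hz => hd x (hm x hx).1 z (hm z hz).1 1)
      (fun x hx z hz => hd x (hm x hx).1 z (hm z hz).1 2)
      (fun x hx z hz => hd x (hm x hx).1 z (hm z hz).1 3)
      (fun x hx z hz => hdiff x (hm x hx).1 z (hm z hz).1 0)
      (fun x hx z hz _ => hdiff x (hm x hx).1 z (hm z hz).1 1)
      (fun x hx z hz h0 h1 => hstep (x 0) (x 2 - z 2) (hes x 2) (hes z 2) (hm x hx).2
        (hh x (hm x hx).1 2) (hh z (hm z hz).1 2) (by
          simp only [hes, Matrix.cons_val]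
          rw [h0, h1]; ring))
      (fun x hx z hz h0 h1 h2 => hstep (x 0) (x 3 - z 3) (hes z 1) (hes x 1) (hm x hx).2
        (hh z (hm z hz).1 1) (hh x (hm x hx).1 1) (by
          simp only [hes, Matrix.cons_val]
          rw [h0, h1, h2]; ring))
    calc (T1.card : ℝ) ≤ (((16 * g * B / A / g + 1) * (16 * g * B / A / g + 1) *
          (2 * A / g + 1) * (2 * A / g + 1) : ℕ) : ℝ) := by exact_mod_cast h
      _ = ((16 * g * B / A / g + 1 : ℕ) : ℝ) * ((16 * g * B / A / g + 1 : ℕ) : ℝ) *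
          ((2 * A / g + 1 : ℕ) : ℝ) * ((2 * A / g + 1 : ℕ) : ℝ) := by push_cast; ring
      _ ≤ (17 * B / A) * (17 * B / A) * (6 * A / g) * (6 * A / g) := by
          have a1 := quo_le' (B := B) hg hA hAB
          have a2 := quo_le hg hgA (rfl : 2 * A = 2 * A)
          gcongr
      _ = 10404 * (B : ℝ) ^ 2 / (g : ℝ) ^ 2 := by
          field_simp
          ring
  have e2 : (T2.card : ℝ) ≤ 10404 * (B : ℝ) ^ 2 / (g : ℝ) ^ 2 := by
    have hm : ∀ x ∈ T2, x ∈ T ∧ (A : ℤ) ≤ 8 * |x 3| := fun x hx => by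
      rw [hT2, mem_filter] at hx; exact hx
    have h := nest4 T2 (fun x => x 3) (fun x => x 2) (fun x => x 1) (fun x => x 0) g (2 * A)
      (2 * A) (16 * g * B / A) (16 * g * B / A) hg
      (fun x _ z _ h0 h1 h2 h3 => by
        funext k
        fin_cases k
        · exact h3
        · exact h2
        · exact h1
        · exact h0)
      (fun x hx z hz => hd x (hm x hx).1 z (hm z hz).1 3)
      (fun x hx z hz => hd x (hm x hx).1 z (hm z hz).1 2)
      (fun x hx z hz => hd x (hm x hx).1 z (hm z hz).1 1)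
      (fun x hx z hz => hd x (hm x hx).1 z (hm z hz).1 0)
      (fun x hx z hz => hdiff x (hm x hx).1 z (hm z hz).1 3)
      (fun x hx z hz _ => hdiff x (hm x hx).1 z (hm z hz).1 2)
      (fun x hx z hz h0 h1 => hstep (x 3) (x 1 - z 1) (hes x 0) (hes z 0) (hm x hx).2
        (hh x (hm x hx).1 0) (hh z (hm z hz).1 0) (by
          simp only [hes, Matrix.cons_val]
          rw [h0, h1]; ring))
      (fun x hx z hz h0 h1 h2 => hstep (x 3) (x 0 - z 0) (hes z 1) (hes x 1) (hm x hx).2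
        (hh z (hm z hz).1 1) (hh x (hm x hx).1 1) (by
          simp only [hes, Matrix.cons_val]
          rw [h0, h1, h2]; ring))
    calc (T2.card : ℝ) ≤ (((16 * g * B / A / g + 1) * (16 * g * B / A / g + 1) *
          (2 * A / g + 1) * (2 * A / g + 1) : ℕ) : ℝ) := by exact_mod_cast h
      _ = ((16 * g * B / A / g + 1 : ℕ) : ℝ) * ((16 * g * B / A / g + 1 : ℕ) : ℝ) *
          ((2 * A / g + 1 : ℕ) : ℝ) * ((2 * A / g + 1 : ℕ) : ℝ) := by push_cast; ring
      _ ≤ (17 * B / A) * (17 * B / A) * (6 * A / g) * (6 * A / g) := by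
          have a1 := quo_le' (B := B) hg hA hAB
          have a2 := quo_le hg hgA (rfl : 2 * A = 2 * A)
          gcongr
      _ = 10404 * (B : ℝ) ^ 2 / (g : ℝ) ^ 2 := by
          field_simp
          ring
  have e3 : (T3.card : ℝ) ≤ 82944 * (B : ℝ) ^ 2 / (g : ℝ) ^ 2 := by
    rcases T3.eq_empty_or_nonempty with h0 | ⟨x, hx⟩
    · rw [h0]
      simp only [card_empty, Nat.cast_zero]
      positivity
    have hm : ∀ x ∈ T3, x ∈ T ∧ 8 * |x 0| < (A : ℤ) ∧ 8 * |x 3| < (A : ℤ) := fun x hx => by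
      rw [hT3, mem_filter] at hx; exact hx
    have hA2 : (A : ℤ) ^ 2 ≤ 8 * ((g * B : ℕ) : ℤ) := by
      obtain ⟨hxT, hx0, hx3⟩ := hm x hx
      obtain ⟨k, hk⟩ := exists_ht (by norm_num) x
      have h2 : (A : ℤ) ≤ 2 * |x k| := by
        rw [hk]
        exact_mod_cast (hT x hxT).2.1
      have a0 := abs_nonneg (x 0)
      have a1 := abs_nonneg (x 1)
      have a2 := abs_nonneg (x 2)
      have a3 := abs_nonneg (x 3)
      have c1 := hc x hxT 1
      have c2 := hc x hxT 2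
      have b0 := hh x hxT 0
      have b2 := hh x hxT 2
      simp only [hes, Matrix.cons_val] at b0 b2
      fin_cases k
      · simp only [Fin.zero_eta] at h2
        omega
      · have h3 : (A : ℤ) ≤ 2 * |x 1| := h2
        have h4 : x 1 ^ 2 = |x 1| ^ 2 := (sq_abs _).symm
        have h5 : |x 0 * x 2| = |x 0| * |x 2| := abs_mul _ _
        have h6 := neg_abs_le (x 0 * x 2 - x 1 ^ 2)
        have h7 := le_abs_self (x 0 * x 2)
        nlinarith
      · have h3 : (A : ℤ) ≤ 2 * |x 2| := h2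
        have h4 : x 2 ^ 2 = |x 2| ^ 2 := (sq_abs _).symm
        have h5 : |x 1 * x 3| = |x 1| * |x 3| := abs_mul _ _
        have h6 := neg_abs_le (x 1 * x 3 - x 2 ^ 2)
        have h7 := le_abs_self (x 1 * x 3)
        nlinarith
      · have h3 : (A : ℤ) ≤ 2 * |x 3| := h2
        omega
    have h := nest4 T3 (fun x => x 0) (fun x => x 1) (fun x => x 2) (fun x => x 3) g (2 * A)
      (2 * A) (2 * A) (2 * A) hg
      (fun x _ z _ h0 h1 h2 h3 => by
        funext k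
        fin_cases k
        · exact h0
        · exact h1
        · exact h2
        · exact h3)
      (fun x hx z hz => hd x (hm x hx).1 z (hm z hz).1 0)
      (fun x hx z hz => hd x (hm x hx).1 z (hm z hz).1 1)
      (fun x hx z hz => hd x (hm x hx).1 z (hm z hz).1 2)
      (fun x hx z hz => hd x (hm x hx).1 z (hm z hz).1 3)
      (fun x hx z hz => hdiff x (hm x hx).1 z (hm z hz).1 0)
      (fun x hx z hz _ => hdiff x (hm x hx).1 z (hm z hz).1 1)
      (fun x hx z hz _ _ => hdiff x (hm x hx).1 z (hm z hz).1 2)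
      (fun x hx z hz _ _ _ => hdiff x (hm x hx).1 z (hm z hz).1 3)
    have hA2' : (A : ℝ) ^ 2 ≤ 8 * (g * B) := by
      exact_mod_cast hA2
    have h6 : 6 * (A : ℝ) / g ≤ 48 * B / A := by
      rw [div_le_div_iff₀ hg' hA']
      nlinarith
    calc (T3.card : ℝ) ≤ (((2 * A / g + 1) * (2 * A / g + 1) *
          (2 * A / g + 1) * (2 * A / g + 1) : ℕ) : ℝ) := by exact_mod_cast h
      _ = ((2 * A / g + 1 : ℕ) : ℝ) * ((2 * A / g + 1 : ℕ) : ℝ) *
          ((2 * A / g + 1 : ℕ) : ℝ) * ((2 * A / g + 1 : ℕ) : ℝ) := by push_cast; ring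
      _ ≤ (6 * A / g) * (6 * A / g) * (6 * A / g) * (6 * A / g) := by
          have a2 := quo_le hg hgA (rfl : 2 * A = 2 * A)
          gcongr
      _ ≤ (48 * B / A) * (48 * B / A) * (6 * A / g) * (6 * A / g) := by
          gcongr
      _ = 82944 * (B : ℝ) ^ 2 / (g : ℝ) ^ 2 := by
          field_simp
          ring
  have hcard : (T.card : ℝ) ≤ T1.card + (T2.card + T3.card) := by
    have h1 := Finset.card_le_card hcov
    have h2 := Finset.card_union_le T1 (T2 ∪ T3)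
    have h3 := Finset.card_union_le T2 T3
    have h4 : T.card ≤ T1.card + (T2.card + T3.card) := by omega
    exact_mod_cast h4
  calc (T.card : ℝ) ≤ T1.card + (T2.card + T3.card) := hcard
    _ ≤ 10404 * (B : ℝ) ^ 2 / (g : ℝ) ^ 2 + (10404 * (B : ℝ) ^ 2 / (g : ℝ) ^ 2 +
        82944 * (B : ℝ) ^ 2 / (g : ℝ) ^ 2) := by gcongr
    _ = 103752 * (B : ℝ) ^ 2 / (g : ℝ) ^ 2 := by ring

end Pool.Agent.H548.TC
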