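import Mathlib
import Pool.Agent.H548.TC.Nest

/-! The vectors `x` for which `hes x` has a large content. -/

namespace Pool.Agent.H548.TC

open Finset
open Pool.Agent.H548.WM (ht bx le_ht le_ht' ht_le exists_ht mem_bx)

theorem split (m : ℕ) : ∀ g : ℕ, 1 ≤ g → ∃ a b : ℕ, g = a * b ∧ a.Coprime b ∧ a.Coprime m ∧
    ∀ p : ℕ, p.Prime → p ∣ b → p ∣ m := by
  intro g
  induction g using Nat.strong_induction_on with
  | _ g ih =>
    intro hg
    by_cases h : g.Coprime m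
    · refine ⟨g, 1, by ring, Nat.coprime_one_right g, h, ?_⟩
      intro p hp hp1
      exact absurd (Nat.dvd_one.1 hp1) hp.one_lt.ne'
    · obtain ⟨p, hp, hpg, hpm⟩ := Nat.Prime.not_coprime_iff_dvd.1 h
      obtain ⟨e, g', hnd, hge⟩ := Nat.exists_eq_pow_mul_and_not_dvd (show g ≠ 0 by omega) p
        hp.one_lt.ne'
      have he : e ≠ 0 := by
        rintro rfl
        rw [pow_zero, one_mul] at hge
        rw [hge] at hpg
        exact hnd hpg
      have hg'0 : g' ≠ 0 := by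
        rintro rfl
        exact hnd (dvd_zero p)
      have hlt : g' < g := by
        rw [hge]
        have h1 : 1 < p ^ e := Nat.one_lt_pow he hp.one_lt
        nlinarith [Nat.pos_of_ne_zero hg'0]
      obtain ⟨a, b, hab, hc, hcm, hpb⟩ := ih g' hlt (Nat.pos_of_ne_zero hg'0)
      refine ⟨a, p ^ e * b, ?_, ?_, hcm, ?_⟩
      · rw [hge, hab]; ring
      · apply Nat.Coprime.mul_right _ hc
        apply Nat.Coprime.pow_right
        rw [Nat.coprime_comm, hp.coprime_iff_not_dvd]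
        intro h1
        exact hnd (h1.trans ⟨b, hab⟩)
      · intro q hq hqd
        rcases (Nat.Prime.dvd_mul hq).1 hqd with h1 | h1
        · have := hq.dvd_of_dvd_pow h1
          rw [(Nat.prime_dvd_prime_iff_eq hq hp).1 this]
          exact hpm
        · exact hpb q hq h1

theorem class_count (T : Finset (Fin 4 → ℤ)) (A B a u v : ℕ) (hA : 1 ≤ A) (hAB : A ≤ B)
    (ha : 1 ≤ a) (hu : 1 ≤ u) (hv : 1 ≤ v) (hgA : a * (u * v ^ 2) ≤ 4 * A)
    (hcop : IsCoprime (a : ℤ) ((u * v ^ 2 : ℕ) : ℤ))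
    (hT : ∀ x ∈ T, ht x ≤ A ∧ A ≤ 2 * ht x ∧ ht (hes x) ≤ a * (u * v ^ 2) * B ∧
      (∀ k, ((a * (u * v ^ 2) : ℕ) : ℤ) ∣ hes x k) ∧ IsCoprime (a : ℤ) (x 0) ∧
      IsCoprime ((u * v ^ 2 : ℕ) : ℤ) (x 3) ∧ (u : ℤ) ∣ x 2) :
    (T.card : ℝ) ≤ 103752 * (B : ℝ) ^ 2 / u := by
  classical
  set b := u * v ^ 2 with hb
  have hb1 : 1 ≤ b := Nat.mul_pos hu (by positivity)
  have hg1 : 1 ≤ a * b := Nat.mul_pos ha hb1
  have haZ : (0 : ℤ) < a := by exact_mod_cast ha
  have hbZ : (0 : ℤ) < b := by exact_mod_cast hb1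
  have hvZ : (0 : ℤ) < (v : ℤ) ^ 2 := by positivity
  set κ : (Fin 4 → ℤ) → ℤ × ℤ × ℤ × ℤ := fun x =>
    (x 0 % a, x 1 % a, (x 2 / u) % ((v : ℤ) ^ 2), x 3 % b) with hκ
  set W : Finset (ℤ × ℤ × ℤ × ℤ) := (Finset.Ico (0 : ℤ) a) ×ˢ ((Finset.Ico (0 : ℤ) a) ×ˢ
    ((Finset.Ico (0 : ℤ) ((v : ℤ) ^ 2)) ×ˢ (Finset.Ico (0 : ℤ) b))) with hW
  have hWc : W.card = a * (a * (v ^ 2 * b)) := by
    rw [hW, card_product, card_product, card_product]
    simp only [Int.card_Ico, sub_zero, Int.toNat_natCast]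
    congr 3
  have hmaps : ∀ x ∈ T, κ x ∈ W := by
    intro x _
    rw [hW, mem_product, mem_product, mem_product]
    simp only [hκ, mem_Ico]
    exact ⟨⟨Int.emod_nonneg _ haZ.ne', Int.emod_lt_of_pos _ haZ⟩,
      ⟨Int.emod_nonneg _ haZ.ne', Int.emod_lt_of_pos _ haZ⟩,
      ⟨Int.emod_nonneg _ hvZ.ne', Int.emod_lt_of_pos _ hvZ⟩,
      ⟨Int.emod_nonneg _ hbZ.ne', Int.emod_lt_of_pos _ hbZ⟩⟩
  have hfib : ∀ w ∈ W, (((T.filter fun x => κ x = w).card : ℕ) : ℝ) ≤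
      103752 * (B : ℝ) ^ 2 / ((a * b : ℕ) : ℝ) ^ 2 := by
    intro w _
    apply one_class (T.filter fun x => κ x = w) A B (a * b) hA hAB hg1 hgA
    · intro x hx
      rw [mem_filter] at hx
      exact ⟨(hT x hx.1).1, (hT x hx.1).2.1, (hT x hx.1).2.2.1⟩
    · intro x hx z hz
      rw [mem_filter] at hx hz
      obtain ⟨-, -, -, xd, xa, xb, xu⟩ := hT x hx.1
      obtain ⟨-, -, -, zd, -, -, zu⟩ := hT z hz.1
      have hxz : κ x = κ z := hx.2.trans hz.2.symm
      simp only [hκ, Prod.mk.injEq] at hxz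
      obtain ⟨k0, k1, k2, k3⟩ := hxz
      have m0 : (a : ℤ) ∣ x 0 - z 0 := Int.ModEq.dvd (show z 0 ≡ x 0 [ZMOD a] from k0.symm)
      have m1 : (a : ℤ) ∣ x 1 - z 1 := Int.ModEq.dvd (show z 1 ≡ x 1 [ZMOD a] from k1.symm)
      have m3 : (b : ℤ) ∣ x 3 - z 3 := Int.ModEq.dvd (show z 3 ≡ x 3 [ZMOD b] from k3.symm)
      have m2 : (b : ℤ) ∣ x 2 - z 2 := by
        have h1 : (v : ℤ) ^ 2 ∣ x 2 / u - z 2 / u :=
          Int.ModEq.dvd (show z 2 / u ≡ x 2 / u [ZMOD (v : ℤ) ^ 2] from k2.symm)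
        have h2 : (u : ℤ) * (v : ℤ) ^ 2 ∣ u * (x 2 / u - z 2 / u) := mul_dvd_mul_left _ h1
        rw [mul_sub, Int.mul_ediv_cancel' xu, Int.mul_ediv_cancel' zu] at h2
        rw [hb]
        push_cast
        exact h2
      have da : ∀ k, (a : ℤ) ∣ hes x k - hes z k := fun k =>
        dvd_sub (Dvd.dvd.trans (by push_cast; exact dvd_mul_right _ _) (xd k))
          (Dvd.dvd.trans (by push_cast; exact dvd_mul_right _ _) (zd k))
      have db : ∀ k, (b : ℤ) ∣ hes x k - hes z k := fun k =>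
        dvd_sub (Dvd.dvd.trans (by push_cast; exact dvd_mul_left _ _) (xd k))
          (Dvd.dvd.trans (by push_cast; exact dvd_mul_left _ _) (zd k))
      have a0 := da 0
      have a1 := da 1
      have a2 := da 2
      have b0 := db 0
      have b1 := db 1
      simp only [hes, Matrix.cons_val] at a0 a1 a2 b0 b1
      -- modulo a
      have ma2 : (a : ℤ) ∣ x 2 - z 2 := by
        apply xa.dvd_of_dvd_mul_left
        have : x 0 * (x 2 - z 2) = (x 0 * x 2 - x 1 ^ 2 - (z 0 * z 2 - z 1 ^ 2)) +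
            (x 1 - z 1) * (x 1 + z 1) - (x 0 - z 0) * z 2 := by ring
        rw [this]
        exact dvd_sub (dvd_add a2 (Dvd.dvd.mul_right m1 _)) (Dvd.dvd.mul_right m0 _)
      have ma3 : (a : ℤ) ∣ x 3 - z 3 := by
        apply xa.dvd_of_dvd_mul_left
        have : x 0 * (x 3 - z 3) = -(x 1 * x 2 - x 0 * x 3 - (z 1 * z 2 - z 0 * z 3)) +
            (x 1 - z 1) * x 2 + z 1 * (x 2 - z 2) - (x 0 - z 0) * z 3 := by ring
        rw [this]
        exact dvd_sub (dvd_add (dvd_add (dvd_neg.2 a1) (Dvd.dvd.mul_right m1 _))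
          (Dvd.dvd.mul_left ma2 _)) (Dvd.dvd.mul_right m0 _)
      -- modulo b
      have mb1 : (b : ℤ) ∣ x 1 - z 1 := by
        apply xb.dvd_of_dvd_mul_left
        have : x 3 * (x 1 - z 1) = (x 1 * x 3 - x 2 ^ 2 - (z 1 * z 3 - z 2 ^ 2)) +
            (x 2 - z 2) * (x 2 + z 2) - (x 3 - z 3) * z 1 := by ring
        rw [this]
        exact dvd_sub (dvd_add b0 (Dvd.dvd.mul_right m2 _)) (Dvd.dvd.mul_right m3 _)
      have mb0 : (b : ℤ) ∣ x 0 - z 0 := by
        apply xb.dvd_of_dvd_mul_left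
        have : x 3 * (x 0 - z 0) = -(x 1 * x 2 - x 0 * x 3 - (z 1 * z 2 - z 0 * z 3)) +
            (x 1 - z 1) * x 2 + z 1 * (x 2 - z 2) - z 0 * (x 3 - z 3) := by ring
        rw [this]
        exact dvd_sub (dvd_add (dvd_add (dvd_neg.2 b1) (Dvd.dvd.mul_right mb1 _))
          (Dvd.dvd.mul_left m2 _)) (Dvd.dvd.mul_left m3 _)
      intro k
      have hk : (a : ℤ) ∣ x k - z k ∧ (b : ℤ) ∣ x k - z k := by
        fin_cases k
        · exact ⟨m0, mb0⟩
        · exact ⟨m1, mb1⟩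
        · exact ⟨ma2, m2⟩
        · exact ⟨ma3, m3⟩
      push_cast
      exact hcop.mul_dvd hk.1 hk.2
  have hsum := Finset.card_eq_sum_card_fiberwise (f := κ) (s := T) (t := W)
    (fun x hx => hmaps x hx)
  have haR : (0 : ℝ) < a := by exact_mod_cast ha
  have huR : (0 : ℝ) < u := by exact_mod_cast hu
  have hvR : (0 : ℝ) < v := by exact_mod_cast hv
  calc (T.card : ℝ) = ∑ w ∈ W, (((T.filter fun x => κ x = w).card : ℕ) : ℝ) := by
        exact_mod_cast hsum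
    _ ≤ ∑ w ∈ W, 103752 * (B : ℝ) ^ 2 / ((a * b : ℕ) : ℝ) ^ 2 := Finset.sum_le_sum hfib
    _ = (W.card : ℝ) * (103752 * (B : ℝ) ^ 2 / ((a * b : ℕ) : ℝ) ^ 2) := by
        rw [Finset.sum_const, nsmul_eq_mul]
    _ = 103752 * (B : ℝ) ^ 2 / u := by
        rw [hWc, hb]
        push_cast
        field_simp

theorem sum_inv_sq (N : ℕ) : ∑ n ∈ Finset.Icc 1 N, (1 / (n : ℝ) ^ 2) ≤ 2 := by
  have h : ∀ N : ℕ, 1 ≤ N → ∑ n ∈ Finset.Icc 1 N, (1 / (n : ℝ) ^ 2) ≤ 2 - 1 / (N : ℝ) := by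
    intro N hN
    induction N, hN using Nat.le_induction with
    | base => norm_num
    | succ n hn ih =>
      rw [Finset.sum_Icc_succ_top (by omega)]
      have hn' : (0 : ℝ) < n := by exact_mod_cast hn
      have h1 : 1 / ((n + 1 : ℕ) : ℝ) ^ 2 ≤ 1 / n - 1 / ((n + 1 : ℕ) : ℝ) := by
        push_cast
        rw [div_sub_div _ _ hn'.ne' (by positivity), div_le_div_iff₀ (by positivity)
          (by positivity)]
        nlinarith
      linarith
  rcases Nat.eq_zero_or_pos N with rfl | hN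
  · simp
  · have h1 := h N hN
    have : (0 : ℝ) ≤ 1 / (N : ℝ) := by positivity
    linarith

theorem hes_eq {x : Fin 4 → ℤ} {y : Fin 3 → ℤ} (hy : Prim y) (h : Inc x y) :
    ∃ c : ℤ, ∀ k, hes x k = c * y k := by
  obtain ⟨w, hw⟩ := hy
  rw [Fin.sum_univ_three] at hw
  obtain ⟨r1, r2⟩ := h
  have e01 : (x 1 * x 3 - x 2 ^ 2) * y 1 = (x 1 * x 2 - x 0 * x 3) * y 0 := by
    linear_combination x 3 * r1 - x 2 * r2
  have e02 : (x 1 * x 3 - x 2 ^ 2) * y 2 = (x 0 * x 2 - x 1 ^ 2) * y 0 := by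
    linear_combination x 1 * r2 - x 2 * r1
  have e12 : (x 1 * x 2 - x 0 * x 3) * y 2 = (x 0 * x 2 - x 1 ^ 2) * y 1 := by
    linear_combination x 1 * r1 - x 0 * r2
  refine ⟨w 0 * (x 1 * x 3 - x 2 ^ 2) + w 1 * (x 1 * x 2 - x 0 * x 3) +
    w 2 * (x 0 * x 2 - x 1 ^ 2), ?_⟩
  intro k
  fin_cases k
  · simp only [hes, Matrix.cons_val, Fin.zero_eta]
    linear_combination (-(x 1 * x 3 - x 2 ^ 2)) * hw + w 1 * e01 + w 2 * e02
  · simp only [hes, Matrix.cons_val, Fin.mk_one]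
    linear_combination (-(x 1 * x 2 - x 0 * x 3)) * hw - w 0 * e01 + w 2 * e12
  · simp only [hes, Matrix.cons_val, Fin.reduceFinMk]
    linear_combination (-(x 0 * x 2 - x 1 ^ 2)) * hw - w 0 * e02 - w 1 * e12

theorem ht_hes (x : Fin 4 → ℤ) : ht (hes x) ≤ 2 * ht x ^ 2 := by
  apply ht_le
  have h : ∀ i j i' j', |x i * x j - x i' * x j'| ≤ ((2 * ht x ^ 2 : ℕ) : ℤ) := by
    intro i j i' j'
    push_cast
    calc |x i * x j - x i' * x j'| ≤ |x i * x j| + |x i' * x j'| := abs_sub _ _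
      _ = |x i| * |x j| + |x i'| * |x j'| := by rw [abs_mul, abs_mul]
      _ ≤ ht x * ht x + ht x * ht x := by
          gcongr <;> exact le_ht' x _
      _ = 2 * (ht x : ℤ) ^ 2 := by ring
  intro k
  fin_cases k
  · simp only [hes, Matrix.cons_val, Fin.zero_eta]
    have := h 1 3 2 2
    rwa [sq]
  · simp only [hes, Matrix.cons_val, Fin.mk_one]
    exact h 1 2 0 3
  · simp only [hes, Matrix.cons_val, Fin.reduceFinMk]
    have := h 0 2 1 1
    rwa [sq]

/-- The number of `x` with given sizes of `x` and `y`, if `y` is at least as large as `x`. -/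
theorem xcount (A B : ℕ) (hA : 1 ≤ A) (hAB : A ≤ B) (S : Finset (Fin 4 → ℤ))
    (hS : ∀ x ∈ S, Prim x ∧ ht x ≤ A ∧ A ≤ 2 * ht x ∧ hes x ≠ 0 ∧
      ∃ y : Fin 3 → ℤ, Prim y ∧ Inc x y ∧ ht y ≤ B ∧ B ≤ 2 * ht y) :
    (S.card : ℝ) ≤ 1660032 * ((A : ℝ) ^ 2 * B) := by
  classical
  have hB : 1 ≤ B := hA.trans hAB
  have hA' : (0 : ℝ) < A := by exact_mod_cast hA
  have hB' : (0 : ℝ) < B := by exact_mod_cast hB
  set G := 4 * A ^ 2 / B with hG
  have hGA : G ≤ 4 * A := by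
    rw [hG]
    apply Nat.div_le_of_le_mul
    calc 4 * A ^ 2 = A * (4 * A) := by ring
      _ ≤ B * (4 * A) := Nat.mul_le_mul_right _ hAB
  -- the parameters
  set Tt : ℕ × ℕ × ℕ → Finset (Fin 4 → ℤ) := fun t => S.filter fun x =>
    Nat.Coprime t.1 (t.2.1 * t.2.2 ^ 2) ∧
    ht (hes x) ≤ t.1 * (t.2.1 * t.2.2 ^ 2) * B ∧
    (∀ k, ((t.1 * (t.2.1 * t.2.2 ^ 2) : ℕ) : ℤ) ∣ hes x k) ∧ IsCoprime (t.1 : ℤ) (x 0) ∧
    IsCoprime ((t.2.1 * t.2.2 ^ 2 : ℕ) : ℤ) (x 3) ∧ (t.2.1 : ℤ) ∣ x 2 with hTt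
  set I : Finset (ℕ × ℕ × ℕ) := ((Finset.Icc 1 G) ×ˢ ((Finset.Icc 1 G) ×ˢ
    (Finset.Icc 1 G))).filter fun t => t.1 * (t.2.1 * t.2.2 ^ 2) ≤ G with hI
  have hcov : S ⊆ I.biUnion Tt := by
    intro x hx
    obtain ⟨hp, hxA, hxA', hh0, y, hy, hinc, hyB, hyB'⟩ := hS x hx
    obtain ⟨c, hc⟩ := hes_eq hy hinc
    have hc0 : c ≠ 0 := by
      rintro rfl
      apply hh0
      funext k
      rw [hc k, zero_mul, Pi.zero_apply]
    set g := c.natAbs with hg
    have hg1 : 1 ≤ g := by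
      have := Int.natAbs_pos.2 hc0
      omega
    have hgd : ∀ k, (g : ℤ) ∣ hes x k := by
      intro k
      rw [hc k, hg, Int.natAbs_dvd]
      exact dvd_mul_right _ _
    have hgB : ht (hes x) ≤ g * B := by
      apply ht_le
      intro k
      have hgabs : |c| = (g : ℤ) := Int.abs_eq_natAbs c
      rw [hc k, abs_mul, hgabs]
      have h1 := (le_ht' y k).trans (show (ht y : ℤ) ≤ B by exact_mod_cast hyB)
      push_cast
      gcongr
    have hgG : g ≤ G := by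
      rw [hG, Nat.le_div_iff_mul_le (by omega)]
      obtain ⟨k, hk⟩ := exists_ht (by norm_num) y
      have h1 : g * ht y ≤ ht (hes x) := by
        have h2 := le_ht (hes x) k
        rw [hc k, Int.natAbs_mul] at h2
        have h3 : (y k).natAbs = ht y := by
          rw [Int.abs_eq_natAbs] at hk
          exact_mod_cast hk
        rw [h3] at h2
        exact h2
      have h2 := ht_hes x
      calc g * B ≤ g * (2 * ht y) := Nat.mul_le_mul_left _ hyB'
        _ = 2 * (g * ht y) := by ring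
        _ ≤ 2 * (2 * ht x ^ 2) := Nat.mul_le_mul_left _ (h1.trans h2)
        _ ≤ 2 * (2 * A ^ 2) := by gcongr
        _ = 4 * A ^ 2 := by ring
    obtain ⟨a, b, hab, hcop, hca, hpb⟩ := split (x 0).natAbs g hg1
    have ha1 : 1 ≤ a := by
      rcases Nat.eq_zero_or_pos a with rfl | h
      · simp at hab; omega
      · exact h
    have hb1 : 1 ≤ b := by
      rcases Nat.eq_zero_or_pos b with rfl | h
      · simp at hab; omega
      · exact h
    obtain ⟨u, v, hvu, hsq⟩ := Nat.sq_mul_squarefree b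
    have hb : b = u * v ^ 2 := by rw [← hvu]; ring
    have hu1 : 1 ≤ u := by
      rcases Nat.eq_zero_or_pos u with rfl | h
      · simp at hvu; omega
      · exact h
    have hv1 : 1 ≤ v := by
      rcases Nat.eq_zero_or_pos v with rfl | h
      · simp at hvu; omega
      · exact h
    -- primes dividing b
    have hprime : ∀ p : ℕ, p.Prime → p ∣ b → (p : ℤ) ∣ x 0 ∧ (p : ℤ) ∣ x 1 ∧ (p : ℤ) ∣ x 2 := by
      intro p hp hpd
      have hpZ : Prime (p : ℤ) := Nat.prime_iff_prime_int.1 hp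
      have h0 : (p : ℤ) ∣ x 0 := Int.natCast_dvd.2 (hpb p hp hpd)
      have hpg : (p : ℤ) ∣ g := by
        rw [hab]
        exact_mod_cast Dvd.dvd.mul_left hpd a
      have g2 := hpg.trans (hgd 2)
      have g0 := hpg.trans (hgd 0)
      simp only [hes, Matrix.cons_val] at g0 g2
      have h1 : (p : ℤ) ∣ x 1 := by
        apply hpZ.dvd_of_dvd_pow (n := 2)
        have : x 1 ^ 2 = x 0 * x 2 - (x 0 * x 2 - x 1 ^ 2) := by ring
        rw [this]
        exact dvd_sub (Dvd.dvd.mul_right h0 _) g2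
      have h2 : (p : ℤ) ∣ x 2 := by
        apply hpZ.dvd_of_dvd_pow (n := 2)
        have : x 2 ^ 2 = x 1 * x 3 - (x 1 * x 3 - x 2 ^ 2) := by ring
        rw [this]
        exact dvd_sub (Dvd.dvd.mul_right h1 _) g0
      exact ⟨h0, h1, h2⟩
    have hcop3 : Nat.Coprime b (x 3).natAbs := by
      by_contra hcc
      obtain ⟨p, hp', hpd, hp3⟩ := Nat.Prime.not_coprime_iff_dvd.1 hcc
      obtain ⟨h0, h1, h2⟩ := hprime p hp' hpd
      have h3 : (p : ℤ) ∣ x 3 := Int.natCast_dvd.2 hp3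
      obtain ⟨w, hw⟩ := hp
      have : (p : ℤ) ∣ 1 := by
        rw [← hw, Fin.sum_univ_four]
        exact dvd_add (dvd_add (dvd_add (Dvd.dvd.mul_left h0 _) (Dvd.dvd.mul_left h1 _))
          (Dvd.dvd.mul_left h2 _)) (Dvd.dvd.mul_left h3 _)
      have h4 : p ∣ 1 := by exact_mod_cast this
      exact hp'.one_lt.ne' (Nat.dvd_one.1 h4)
    have hu2 : (u : ℤ) ∣ x 2 := by
      rw [Int.natCast_dvd]
      rw [← Nat.prod_primeFactors_of_squarefree hsq]
      apply Finset.prod_primes_dvd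
      · intro p hp
        exact (Nat.prime_of_mem_primeFactors hp).prime
      · intro p hp
        have h1 := Nat.dvd_of_mem_primeFactors hp
        have h2 : p ∣ b := h1.trans ⟨v ^ 2, hb⟩
        exact Int.natCast_dvd.1 (hprime p (Nat.prime_of_mem_primeFactors hp) h2).2.2
    rw [mem_biUnion]
    have hgab : g = a * (u * v ^ 2) := by rw [hab, hb]
    refine ⟨(a, u, v), ?_, ?_⟩
    · rw [hI, mem_filter, mem_product, mem_product, mem_Icc, mem_Icc, mem_Icc]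
      have hag : a ≤ g := by rw [hab]; exact Nat.le_mul_of_pos_right _ hb1
      have hbg : b ≤ g := by rw [hab]; exact Nat.le_mul_of_pos_left _ ha1
      have hub : u ≤ b := by rw [hb]; exact Nat.le_mul_of_pos_right _ (by positivity)
      have hvb : v ≤ b := by
        rw [hb]
        calc v ≤ v ^ 2 := Nat.le_self_pow (by norm_num) _
          _ ≤ u * v ^ 2 := Nat.le_mul_of_pos_left _ hu1
      refine ⟨⟨⟨ha1, hag.trans hgG⟩, ⟨hu1, (hub.trans hbg).trans hgG⟩,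
        ⟨hv1, (hvb.trans hbg).trans hgG⟩⟩, ?_⟩
      simp only
      rw [← hgab]
      exact hgG
    · rw [hTt, mem_filter]
      simp only
      rw [← hgab]
      refine ⟨hx, by rwa [← hb], hgB, hgd, ?_, ?_, hu2⟩
      · rw [Int.isCoprime_iff_gcd_eq_one]
        exact hca
      · rw [← hb, Int.isCoprime_iff_gcd_eq_one]
        exact hcop3
  have hbound : ∀ t ∈ I, ((Tt t).card : ℝ) ≤ 103752 * (B : ℝ) ^ 2 / t.2.1 := by
    rintro ⟨a, u, v⟩ ht'
    rw [hI, mem_filter, mem_product, mem_product, mem_Icc, mem_Icc, mem_Icc] at ht'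
    obtain ⟨⟨⟨ha1, -⟩, ⟨hu1, -⟩, ⟨hv1, -⟩⟩, hle⟩ := ht'
    simp only at ha1 hu1 hv1 hle ⊢
    by_cases hcop : Nat.Coprime a (u * v ^ 2)
    · apply class_count (Tt (a, u, v)) A B a u v hA hAB ha1 hu1 hv1 (hle.trans hGA)
        (by rw [Int.isCoprime_iff_gcd_eq_one]; exact hcop)
      intro x hx
      rw [hTt, mem_filter] at hx
      obtain ⟨hxS, -, h1, h2, h3, h4, h5⟩ := hx
      obtain ⟨-, hxA, hxA', -⟩ := hS x hxS
      exact ⟨hxA, hxA', h1, h2, h3, h4, h5⟩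
    · have : Tt (a, u, v) = ∅ := by
        rw [hTt]
        apply Finset.filter_eq_empty_iff.2
        intro x _ h
        exact hcop h.1
      rw [this]
      simp only [card_empty, Nat.cast_zero]
      positivity
  have hGR : (G : ℝ) ≤ 4 * (A : ℝ) ^ 2 / B := by
    have := @Nat.cast_div_le ℝ _ _ _ (4 * A ^ 2) B
    push_cast at this
    exact this
  -- the sum over the parameters
  have hsumI : ∑ t ∈ I, (1 / (t.2.1 : ℝ)) ≤ 4 * G := by
    have h1 : ∑ t ∈ I, (1 / (t.2.1 : ℝ)) = ∑ a ∈ Finset.Icc 1 G, ∑ u ∈ Finset.Icc 1 G,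
        ∑ v ∈ Finset.Icc 1 G, if a * (u * v ^ 2) ≤ G then (1 / (u : ℝ)) else 0 := by
      rw [hI, Finset.sum_filter, Finset.sum_product]
      refine Finset.sum_congr rfl fun a _ => ?_
      rw [Finset.sum_product]
    rw [h1, Finset.sum_comm]
    have h2 : ∀ u ∈ Finset.Icc 1 G, ∑ a ∈ Finset.Icc 1 G, ∑ v ∈ Finset.Icc 1 G,
        (if a * (u * v ^ 2) ≤ G then (1 / (u : ℝ)) else 0) ≤
        ∑ v ∈ Finset.Icc 1 G, (G : ℝ) * ((1 / (u : ℝ) ^ 2) * (1 / (v : ℝ) ^ 2)) := by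
      intro u hu
      rw [Finset.sum_comm]
      refine Finset.sum_le_sum fun v hv => ?_
      rw [mem_Icc] at hu hv
      have hu0 : (0 : ℝ) < u := by exact_mod_cast hu.1
      have hv0 : (0 : ℝ) < v := by exact_mod_cast hv.1
      rw [← Finset.sum_filter, Finset.sum_const, nsmul_eq_mul]
      have h3 : (((Finset.Icc 1 G).filter fun a => a * (u * v ^ 2) ≤ G).card : ℝ) ≤
          G / (u * v ^ 2) := by
        have h4 : ((Finset.Icc 1 G).filter fun a => a * (u * v ^ 2) ≤ G) ⊆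
            Finset.Icc 1 (G / (u * v ^ 2)) := by
          intro a ha
          rw [mem_filter, mem_Icc] at ha
          rw [mem_Icc]
          exact ⟨ha.1.1, (Nat.le_div_iff_mul_le (Nat.mul_pos hu.1
            (Nat.pow_pos hv.1))).2 ha.2⟩
        have h5 := Finset.card_le_card h4
        rw [Nat.card_Icc, Nat.add_sub_cancel] at h5
        have h6 : ((G / (u * v ^ 2) : ℕ) : ℝ) ≤ (G : ℝ) / ((u * v ^ 2 : ℕ) : ℝ) :=
          Nat.cast_div_le
        push_cast at h6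
        refine le_trans ?_ h6
        exact_mod_cast h5
      calc (((Finset.Icc 1 G).filter fun a => a * (u * v ^ 2) ≤ G).card : ℝ) * (1 / (u : ℝ))
          ≤ (G / (u * v ^ 2)) * (1 / (u : ℝ)) := by gcongr
        _ = (G : ℝ) * ((1 / (u : ℝ) ^ 2) * (1 / (v : ℝ) ^ 2)) := by
            field_simp
    calc ∑ u ∈ Finset.Icc 1 G, ∑ a ∈ Finset.Icc 1 G, ∑ v ∈ Finset.Icc 1 G,
          (if a * (u * v ^ 2) ≤ G then (1 / (u : ℝ)) else 0)
        ≤ ∑ u ∈ Finset.Icc 1 G, ∑ v ∈ Finset.Icc 1 G,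
            (G : ℝ) * ((1 / (u : ℝ) ^ 2) * (1 / (v : ℝ) ^ 2)) := Finset.sum_le_sum h2
      _ = (G : ℝ) * ((∑ u ∈ Finset.Icc 1 G, (1 / (u : ℝ) ^ 2)) *
            ∑ v ∈ Finset.Icc 1 G, (1 / (v : ℝ) ^ 2)) := by
          rw [Finset.sum_mul_sum, Finset.mul_sum]
          refine Finset.sum_congr rfl fun u _ => ?_
          rw [Finset.mul_sum]
      _ ≤ (G : ℝ) * (2 * 2) := by
          have h3 := sum_inv_sq G
          have h4 : (0 : ℝ) ≤ ∑ u ∈ Finset.Icc 1 G, (1 / (u : ℝ) ^ 2) :=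
            Finset.sum_nonneg fun u _ => by positivity
          gcongr
      _ = 4 * G := by ring
  calc (S.card : ℝ) ≤ ∑ t ∈ I, ((Tt t).card : ℝ) := by
        have h1 := (Finset.card_le_card hcov).trans Finset.card_biUnion_le
        exact_mod_cast h1
    _ ≤ ∑ t ∈ I, 103752 * (B : ℝ) ^ 2 / t.2.1 := Finset.sum_le_sum hbound
    _ = 103752 * (B : ℝ) ^ 2 * ∑ t ∈ I, (1 / (t.2.1 : ℝ)) := by
        rw [Finset.mul_sum]
        refine Finset.sum_congr rfl fun t _ => ?_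
        ring
    _ ≤ 103752 * (B : ℝ) ^ 2 * (4 * (4 * (A : ℝ) ^ 2 / B)) := by
        have : (4 * G : ℝ) ≤ 4 * (4 * (A : ℝ) ^ 2 / B) := by linarith
        gcongr
        exact hsumI.trans this
    _ = 1660032 * ((A : ℝ) ^ 2 * B) := by
        field_simp
        ring

end Pool.Agent.H548.TC
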