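import Mathlib
import Pool.Agent.H548.TC.Stm
import Pool.Agent.W82.QM.PAR

/-! The primitive vectors `x` for given `y`. -/

namespace Pool.Agent.H548.TC

open Finset
open Pool.Agent.H548.WM (ht bx le_ht le_ht' ht_le exists_ht mem_bx)

/-- The key identity: all `2 × 2` minors of two solutions are multiples of the complementary
quadratic forms in `y`. -/
theorem minors {x z : Fin 4 → ℤ} {y : Fin 3 → ℤ} (hy : Prim y) (hx : Inc x y) (hz : Inc z y) :
    ∃ k : ℤ, x 2 * z 3 - x 3 * z 2 = y 0 ^ 2 * k ∧ x 0 * z 1 - x 1 * z 0 = y 2 ^ 2 * k ∧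
      x 0 * z 3 - x 3 * z 0 = (y 1 ^ 2 - y 0 * y 2) * k := by
  obtain ⟨w, hw⟩ := hy
  rw [Fin.sum_univ_three] at hw
  obtain ⟨r1, r2⟩ := hx
  obtain ⟨s1, s2⟩ := hz
  -- relations between the minors
  have u0 : y 1 * (x 0 * z 1 - x 1 * z 0) + y 2 * (x 0 * z 2 - x 2 * z 0) = 0 := by
    linear_combination x 0 * s1 - z 0 * r1
  have u1 : -(y 0 * (x 0 * z 1 - x 1 * z 0)) + y 2 * (x 1 * z 2 - x 2 * z 1) = 0 := by
    linear_combination x 1 * s1 - z 1 * r1
  have u2 : -(y 0 * (x 0 * z 2 - x 2 * z 0)) - y 1 * (x 1 * z 2 - x 2 * z 1) = 0 := by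
    linear_combination x 2 * s1 - z 2 * r1
  have u3 : -(y 0 * (x 0 * z 3 - x 3 * z 0)) - y 1 * (x 1 * z 3 - x 3 * z 1) -
      y 2 * (x 2 * z 3 - x 3 * z 2) = 0 := by
    linear_combination x 3 * s1 - z 3 * r1
  have v0 : y 0 * (x 0 * z 1 - x 1 * z 0) + y 1 * (x 0 * z 2 - x 2 * z 0) +
      y 2 * (x 0 * z 3 - x 3 * z 0) = 0 := by
    linear_combination x 0 * s2 - z 0 * r2
  have v1 : y 1 * (x 1 * z 2 - x 2 * z 1) + y 2 * (x 1 * z 3 - x 3 * z 1) = 0 := by
    linear_combination x 1 * s2 - z 1 * r2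
  have v2 : -(y 0 * (x 1 * z 2 - x 2 * z 1)) + y 2 * (x 2 * z 3 - x 3 * z 2) = 0 := by
    linear_combination x 2 * s2 - z 2 * r2
  have v3 : -(y 0 * (x 1 * z 3 - x 3 * z 1)) - y 1 * (x 2 * z 3 - x 3 * z 2) = 0 := by
    linear_combination x 3 * s2 - z 3 * r2
  generalize x 0 * z 1 - x 1 * z 0 = p01 at *
  generalize x 0 * z 2 - x 2 * z 0 = p02 at *
  generalize x 0 * z 3 - x 3 * z 0 = p03 at *
  generalize x 1 * z 2 - x 2 * z 1 = p12 at *
  generalize x 1 * z 3 - x 3 * z 1 = p13 at *
  generalize x 2 * z 3 - x 3 * z 2 = p23 at *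
  generalize y 0 = a at *
  generalize y 1 = b at *
  generalize y 2 = c at *
  generalize w 0 = α at *
  generalize w 1 = β at *
  generalize w 2 = γ at *
  have hw2 : (α * a + β * b + γ * c) ^ 2 = 1 := by rw [hw]; ring
  refine ⟨α ^ 2 * p23 + β ^ 2 * (p03 + p12) + γ ^ 2 * p01 - 2 * α * β * p13 +
    2 * α * γ * p12 - 2 * β * γ * p02, ?_, ?_, ?_⟩
  · -- a² p12 = a c p23, a² p13 = - a b p23, a² p03 = (b² - a c) p23, a² p01 = c² p23,
    -- a² p02 = - b c p23
    have e12 : a ^ 2 * p12 = a * c * p23 := by linear_combination -a * v2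
    have e13 : a ^ 2 * p13 = -(a * b * p23) := by linear_combination -a * v3
    have e01 : a ^ 2 * p01 = c ^ 2 * p23 := by linear_combination -a * u1 - c * v2
    have e02 : a ^ 2 * p02 = -(b * c * p23) := by linear_combination -a * u2 + b * v2
    have e03 : a ^ 2 * p03 = (b ^ 2 - a * c) * p23 := by linear_combination -a * u3 + b * v3
    linear_combination (-p23) * hw2 - β ^ 2 * e03 - β ^ 2 * e12 - γ ^ 2 * e01 +
      2 * α * β * e13 - 2 * α * γ * e12 + 2 * β * γ * e02
  · have e12 : c ^ 2 * p12 = a * c * p01 := by linear_combination c * u1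
    have e13 : c ^ 2 * p13 = -(a * b * p01) := by linear_combination c * v1 - b * u1
    have e23 : c ^ 2 * p23 = a ^ 2 * p01 := by linear_combination c * v2 + a * u1
    have e02 : c ^ 2 * p02 = -(b * c * p01) := by linear_combination c * u0
    have e03 : c ^ 2 * p03 = (b ^ 2 - a * c) * p01 := by linear_combination c * v0 - b * u0
    linear_combination (-p01) * hw2 - β ^ 2 * e03 - β ^ 2 * e12 - α ^ 2 * e23 +
      2 * α * β * e13 - 2 * α * γ * e12 + 2 * β * γ * e02
  · have e01 : (b ^ 2 - a * c) * p01 = c ^ 2 * p03 := by linear_combination b * u0 - c * v0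
    have e23 : (b ^ 2 - a * c) * p23 = a ^ 2 * p03 := by linear_combination a * u3 - b * v3
    have e12 : (b ^ 2 - a * c) * p12 = a * c * p03 := by
      linear_combination -b * u2 - a * v0 - a * u1
    have e02 : (b ^ 2 - a * c) * p02 = -(b * c * p03) := by
      linear_combination b * v0 - a * u0
    have e13 : (b ^ 2 - a * c) * p13 = -(a * b * p03) := by
      linear_combination -b * u3 + c * v3
    linear_combination (-p03) * hw2 - β ^ 2 * e12 - γ ^ 2 * e01 - α ^ 2 * e23 +
      2 * α * β * e13 - 2 * α * γ * e12 + 2 * β * γ * e02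

theorem prop_prim {m : ℕ} {x z : Fin m → ℤ} (hx : Prim x) (hz : Prim z) {s t : ℤ}
    (h : ∀ i, s * x i = t * z i) (ht : t ≠ 0) : z = x ∨ z = -x := by
  obtain ⟨u, hu⟩ := hx
  obtain ⟨v, hv⟩ := hz
  have h1 : s ∣ t := by
    have : t = s * ∑ i, v i * x i := by
      calc t = t * ∑ i, v i * z i := by rw [hv, mul_one]
        _ = ∑ i, v i * (t * z i) := by
            rw [Finset.mul_sum]; exact Finset.sum_congr rfl fun i _ => by ring
        _ = ∑ i, v i * (s * x i) := Finset.sum_congr rfl fun i _ => by rw [h i]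
        _ = s * ∑ i, v i * x i := by
            rw [Finset.mul_sum]; exact Finset.sum_congr rfl fun i _ => by ring
    exact ⟨_, this⟩
  have h2 : t ∣ s := by
    have : s = t * ∑ i, u i * z i := by
      calc s = s * ∑ i, u i * x i := by rw [hu, mul_one]
        _ = ∑ i, u i * (s * x i) := by
            rw [Finset.mul_sum]; exact Finset.sum_congr rfl fun i _ => by ring
        _ = ∑ i, u i * (t * z i) := Finset.sum_congr rfl fun i _ => by rw [h i]
        _ = t * ∑ i, u i * z i := by
            rw [Finset.mul_sum]; exact Finset.sum_congr rfl fun i _ => by ring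
    exact ⟨_, this⟩
  have h3 : s.natAbs = t.natAbs := Int.natAbs_eq_of_dvd_dvd h1 h2
  rcases Int.natAbs_eq_natAbs_iff.1 h3 with h4 | h4
  · left
    funext i
    have := h i
    rw [h4] at this
    exact (mul_left_cancel₀ ht this).symm
  · right
    funext i
    have := h i
    rw [h4] at this
    have h5 : t * (-(x i)) = t * z i := by linarith
    exact (mul_left_cancel₀ ht h5).symm

open Classical in
theorem lat_aux {y : Fin 3 → ℤ} (i j : Fin 4) (m : ℤ) (hm : m ≠ 0)
    (hinj : ∀ d : Fin 4 → ℤ, Inc d y → d i = 0 → d j = 0 → d = 0)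
    (hdiv : ∀ x z : Fin 4 → ℤ, Inc x y → Inc z y → m ∣ x i * z j - x j * z i)
    (A : ℕ) (hA : 1 ≤ A) (S : Finset (Fin 4 → ℤ))
    (hS : ∀ x ∈ S, Prim x ∧ Inc x y ∧ ht x ≤ A) :
    (S.card : ℝ) ≤ 4 + 8 * (A : ℝ) ^ 2 / |(m : ℝ)| := by
  have hA' : (0 : ℝ) < A := by exact_mod_cast hA
  set f : (Fin 4 → ℤ) → (Fin 2 → ℤ) := fun x => ![x i, x j] with hf
  have hsub : ∀ {x z : Fin 4 → ℤ} (a b : ℤ), Inc x y → Inc z y → Inc (fun k => a * x k - b * z k) y := by
    intro x z a b hx hz
    obtain ⟨r1, r2⟩ := hx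
    obtain ⟨s1, s2⟩ := hz
    constructor
    · show (a * x 0 - b * z 0) * y 0 + (a * x 1 - b * z 1) * y 1 + (a * x 2 - b * z 2) * y 2 = 0
      linear_combination a * r1 - b * s1
    · show (a * x 1 - b * z 1) * y 0 + (a * x 2 - b * z 2) * y 1 + (a * x 3 - b * z 3) * y 2 = 0
      linear_combination a * r2 - b * s2
  have hinjOn : Set.InjOn f ↑S := by
    intro x hx z hz hxz
    have h1 := hinj (fun k => 1 * x k - 1 * z k) (hsub 1 1 (hS x hx).2.1 (hS z hz).2.1)
      (by have := congrFun hxz 0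
          simp only [hf, Matrix.cons_val_zero] at this
          linarith)
      (by have := congrFun hxz 1
          simp only [hf, Matrix.cons_val_one, Matrix.cons_val_fin_one] at this
          linarith)
    funext k
    have := congrFun h1 k
    simp only [Pi.zero_apply] at this
    linarith
  rw [← Finset.card_image_of_injOn hinjOn]
  have hpar := Pool.Agent.W82.QM.par (S.image f) ![1, 0] ![0, 1] A A |(m : ℝ)| 1 hA' hA'
    (abs_pos.2 (by exact_mod_cast hm)) one_pos (by simp) ?_ ?_
  · refine hpar.trans (le_of_eq ?_)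
    rw [one_mul]
    ring
  · intro v hv
    rw [mem_image] at hv
    obtain ⟨x, hx, rfl⟩ := hv
    obtain ⟨hp, hI, hh⟩ := hS x hx
    have hb : ∀ k, |((x k : ℤ) : ℝ)| ≤ A := by
      intro k
      have := (le_ht' x k).trans (show (ht x : ℤ) ≤ A by exact_mod_cast hh)
      exact_mod_cast this
    refine ⟨?_, ?_, ?_⟩
    · intro h0
      have e0 := congrFun h0 0
      have e1 := congrFun h0 1
      simp only [hf, Matrix.cons_val_zero, Matrix.cons_val_one, Matrix.cons_val_fin_one,
        Pi.zero_apply] at e0 e1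
      have := hinj x hI e0 e1
      obtain ⟨u, hu⟩ := hp
      rw [this] at hu
      simp at hu
    · simpa [hf] using hb i
    · simpa [hf] using hb j
  · intro v hv w hw hne hne'
    rw [mem_image] at hv hw
    obtain ⟨x, hx, rfl⟩ := hv
    obtain ⟨z, hz, rfl⟩ := hw
    obtain ⟨hp, hI, -⟩ := hS x hx
    obtain ⟨hp', hI', -⟩ := hS z hz
    have hd := hdiv x z hI hI'
    have hnz : x i * z j - x j * z i ≠ 0 := by
      intro h0
      have key : ∀ (a b : ℤ), (∀ k, a * x k = b * z k) → b ≠ 0 → False := by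
        intro a b hab hb
        rcases prop_prim hp hp' hab hb with h | h
        · exact hne (by rw [h])
        · apply hne'
          rw [h]
          funext k
          fin_cases k <;> simp [hf]
      by_cases hxi : x i = 0
      · by_cases hxj : x j = 0
        · have := hinj x hI hxi hxj
          obtain ⟨u, hu⟩ := hp
          rw [this] at hu
          simp at hu
        · refine key (z j) (x j) (fun k => ?_) hxj
          have h1 := hinj (fun k => z j * x k - x j * z k) (hsub _ _ hI hI')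
            (by show z j * x i - x j * z i = 0
                linarith) (by show z j * x j - x j * z j = 0
                              ring)
          have := congrFun h1 k
          simp only [Pi.zero_apply] at this
          linarith
      · refine key (z i) (x i) (fun k => ?_) hxi
        have h1 := hinj (fun k => z i * x k - x i * z k) (hsub _ _ hI hI')
          (by show z i * x i - x i * z i = 0
              ring) (by show z i * x j - x i * z j = 0
                        linarith)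
        have := congrFun h1 k
        simp only [Pi.zero_apply] at this
        linarith
    have h2 : |m| ≤ |x i * z j - x j * z i| :=
      Int.le_of_dvd (abs_pos.2 hnz) ((abs_dvd_abs _ _).2 hd)
    have h3 : (|(m : ℝ)|) ≤ |(x i * z j - x j * z i : ℝ)| := by exact_mod_cast h2
    simpa [hf] using h3

theorem max_minor (y : Fin 3 → ℤ) : (ht y : ℤ) ^ 2 ≤ 4 * y 0 ^ 2 ∨ (ht y : ℤ) ^ 2 ≤ 4 * y 2 ^ 2 ∨
    (ht y : ℤ) ^ 2 ≤ 4 * |y 1 ^ 2 - y 0 * y 2| := by
  by_cases h0 : (ht y : ℤ) ≤ 2 * |y 0|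
  · left
    calc (ht y : ℤ) ^ 2 ≤ (2 * |y 0|) ^ 2 := by gcongr
      _ = 4 * y 0 ^ 2 := by rw [mul_pow, sq_abs]; ring
  by_cases h2 : (ht y : ℤ) ≤ 2 * |y 2|
  · right; left
    calc (ht y : ℤ) ^ 2 ≤ (2 * |y 2|) ^ 2 := by gcongr
      _ = 4 * y 2 ^ 2 := by rw [mul_pow, sq_abs]; ring
  right; right
  push Not at h0 h2
  have h1 : |y 1| = ht y := by
    obtain ⟨i, hi⟩ := exists_ht (by norm_num) y
    have a0 := abs_nonneg (y 0)
    have a2 := abs_nonneg (y 2)
    fin_cases i
    · simp only [Fin.zero_eta] at hi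
      omega
    · exact hi
    · have : |y 2| = ht y := hi
      omega
  have h3 : |y 0 * y 2| * 4 ≤ (ht y : ℤ) ^ 2 := by
    rw [abs_mul]
    have a0 := abs_nonneg (y 0)
    have a2 := abs_nonneg (y 2)
    nlinarith
  have h4 : y 1 ^ 2 = (ht y : ℤ) ^ 2 := by rw [← h1, sq_abs]
  have h5 : y 1 ^ 2 - y 0 * y 2 ≤ |y 1 ^ 2 - y 0 * y 2| := le_abs_self _
  have h6 : y 0 * y 2 ≤ |y 0 * y 2| := le_abs_self _
  nlinarith

open Classical in
/-- The number of primitive vectors for given `y`. -/
theorem lat_count {y : Fin 3 → ℤ} (hy : Prim y) (A : ℕ) (hA : 1 ≤ A) (S : Finset (Fin 4 → ℤ))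
    (hS : ∀ x ∈ S, Prim x ∧ Inc x y ∧ ht x ≤ A) :
    (S.card : ℝ) ≤ 4 + 32 * (A : ℝ) ^ 2 / (ht y : ℝ) ^ 2 := by
  have hy0 : 1 ≤ ht y := by
    by_contra hc
    have h0 : ∀ i, y i = 0 := by
      intro i
      have := le_ht y i
      have : (y i).natAbs = 0 := by omega
      simpa using this
    obtain ⟨u, hu⟩ := hy
    simp [h0] at hu
  have hB : (0 : ℝ) < ht y := by exact_mod_cast hy0
  have fin : ∀ m : ℤ, (ht y : ℤ) ^ 2 ≤ 4 * |m| → (S.card : ℝ) ≤ 4 + 8 * (A : ℝ) ^ 2 / |(m : ℝ)| →
      (S.card : ℝ) ≤ 4 + 32 * (A : ℝ) ^ 2 / (ht y : ℝ) ^ 2 := by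
    intro m hm h
    refine h.trans ?_
    have hm' : ((ht y : ℝ)) ^ 2 ≤ 4 * |(m : ℝ)| := by exact_mod_cast hm
    have hm0 : 0 < |(m : ℝ)| := by
      have : 0 < ((ht y : ℝ)) ^ 2 := by positivity
      linarith
    have : 8 * (A : ℝ) ^ 2 / |(m : ℝ)| ≤ 32 * (A : ℝ) ^ 2 / (ht y : ℝ) ^ 2 := by
      rw [div_le_div_iff₀ hm0 (by positivity)]
      nlinarith [sq_nonneg (A : ℝ)]
    linarith
  have hBZ : (0 : ℤ) < (ht y : ℤ) ^ 2 := by
    have : (0 : ℤ) < ht y := by exact_mod_cast hy0
    positivity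
  rcases max_minor y with h | h | h
  · have hy00 : y 0 ≠ 0 := by
      intro h0
      rw [h0] at h
      simp at h
      omega
    apply fin (y 0 ^ 2) (by rwa [abs_of_nonneg (sq_nonneg _)])
    apply lat_aux 2 3 (y 0 ^ 2) (pow_ne_zero 2 hy00) _ _ A hA S hS
    · rintro d ⟨r1, r2⟩ h2 h3
      rw [h2, h3] at r2
      have h1 : d 1 = 0 := by
        have : d 1 * y 0 = 0 := by linarith
        exact (mul_eq_zero.1 this).resolve_right hy00
      rw [h1, h2] at r1
      have h0 : d 0 = 0 := by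
        have : d 0 * y 0 = 0 := by linarith
        exact (mul_eq_zero.1 this).resolve_right hy00
      funext k
      fin_cases k
      · exact h0
      · exact h1
      · exact h2
      · exact h3
    · intro x z hx hz
      obtain ⟨k, hk, -, -⟩ := minors hy hx hz
      exact ⟨k, hk⟩
  · have hy20 : y 2 ≠ 0 := by
      intro h0
      rw [h0] at h
      simp at h
      omega
    apply fin (y 2 ^ 2) (by rwa [abs_of_nonneg (sq_nonneg _)])
    apply lat_aux 0 1 (y 2 ^ 2) (pow_ne_zero 2 hy20) _ _ A hA S hS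
    · rintro d ⟨r1, r2⟩ h0 h1
      rw [h0, h1] at r1
      have h2 : d 2 = 0 := by
        have : d 2 * y 2 = 0 := by linarith
        exact (mul_eq_zero.1 this).resolve_right hy20
      rw [h1, h2] at r2
      have h3 : d 3 = 0 := by
        have : d 3 * y 2 = 0 := by linarith
        exact (mul_eq_zero.1 this).resolve_right hy20
      funext k
      fin_cases k
      · exact h0
      · exact h1
      · exact h2
      · exact h3
    · intro x z hx hz
      obtain ⟨k, -, hk, -⟩ := minors hy hx hz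
      exact ⟨k, hk⟩
  · have hm0 : y 1 ^ 2 - y 0 * y 2 ≠ 0 := by
      intro h0
      rw [h0] at h
      simp at h
      omega
    apply fin (y 1 ^ 2 - y 0 * y 2) h
    apply lat_aux 0 3 (y 1 ^ 2 - y 0 * y 2) hm0 _ _ A hA S hS
    · rintro d ⟨r1, r2⟩ h0 h3
      rw [h0] at r1
      rw [h3] at r2
      have h1 : d 1 = 0 := by
        have : d 1 * (y 1 ^ 2 - y 0 * y 2) = 0 := by linear_combination y 1 * r1 - y 2 * r2
        exact (mul_eq_zero.1 this).resolve_right hm0
      have h2 : d 2 = 0 := by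
        have : d 2 * (y 1 ^ 2 - y 0 * y 2) = 0 := by linear_combination y 1 * r2 - y 0 * r1
        exact (mul_eq_zero.1 this).resolve_right hm0
      funext k
      fin_cases k
      · exact h0
      · exact h1
      · exact h2
      · exact h3
    · intro x z hx hz
      obtain ⟨k, -, -, hk⟩ := minors hy hx hz
      exact ⟨k, hk⟩

end Pool.Agent.H548.TC
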