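import Mathlib
import Pool.Agent.H548.WM.Main
import Pool.Agent.H548.TC.Lat
import Pool.Agent.H548.TC.Cls

/-! The number of points with given sizes. -/

namespace Pool.Agent.H548.TC

open Finset
open Pool.Agent.H548.WM (ht bx le_ht le_ht' ht_le exists_ht mem_bx card_bx_le dy dy_spec ht_pos
  Rep)

/-- The conditions on a point of the open set. -/
def Pt (x : Fin 4 → ℤ) (y : Fin 3 → ℤ) : Prop := Prim x ∧ Prim y ∧ Inc x y ∧ hes x ≠ 0

theorem prim_ne {m : ℕ} {v : Fin m → ℤ} (h : Prim v) : v ≠ 0 := by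
  rintro rfl
  obtain ⟨u, hu⟩ := h
  simp at hu

theorem prim_neg {m : ℕ} {v : Fin m → ℤ} (h : Prim v) : Prim (-v) := by
  obtain ⟨u, hu⟩ := h
  refine ⟨-u, ?_⟩
  simpa using hu

/-- Two primitive vectors which are multiples of each other. -/
theorem y_unique {x : Fin 4 → ℤ} {y z : Fin 3 → ℤ} (hy : Prim y) (hz : Prim z) (h1 : Inc x y)
    (h2 : Inc x z) (h0 : hes x ≠ 0) : z = y ∨ z = -y := by
  obtain ⟨c, hc⟩ := hes_eq hy h1
  obtain ⟨d, hd⟩ := hes_eq hz h2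
  apply prop_prim hy hz (s := c) (t := d)
  · intro i
    rw [← hc i, ← hd i]
  · rintro rfl
    apply h0
    funext k
    rw [hd k, zero_mul, Pi.zero_apply]

theorem y_le {x : Fin 4 → ℤ} {y : Fin 3 → ℤ} (hy : Prim y) (h1 : Inc x y) (h0 : hes x ≠ 0) :
    ht y ≤ 2 * ht x ^ 2 := by
  obtain ⟨c, hc⟩ := hes_eq hy h1
  have hc0 : c ≠ 0 := by
    rintro rfl
    apply h0
    funext k
    rw [hc k, zero_mul, Pi.zero_apply]
  refine le_trans ?_ (ht_hes x)
  apply ht_le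
  intro i
  have h2 := le_ht' (hes x) i
  rw [hc i, abs_mul] at h2
  have h3 : 1 ≤ |c| := Int.one_le_abs hc0
  have h4 := abs_nonneg (y i)
  nlinarith

open Classical in
/-- The number of points in a dyadic box. -/
theorem box (A B : ℕ) (hA : 1 ≤ A) (hB : 1 ≤ B) (P : Finset ((Fin 4 → ℤ) × (Fin 3 → ℤ)))
    (hP : ∀ t ∈ P, Pt t.1 t.2 ∧ ht t.1 ≤ A ∧ A ≤ 2 * ht t.1 ∧ ht t.2 ≤ B ∧ B ≤ 2 * ht t.2) :
    (P.card : ℝ) ≤ 3320064 * ((A : ℝ) ^ 2 * B) := by
  have hA' : (0 : ℝ) < A := by exact_mod_cast hA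
  have hB' : (0 : ℝ) < B := by exact_mod_cast hB
  rcases le_total B A with h | h
  · -- fix `y`
    have hcard : (P.card : ℝ) ≤ ∑ y ∈ P.image Prod.snd,
        (((P.filter fun t => t.2 = y).card : ℕ) : ℝ) := by
      have := Finset.card_eq_sum_card_image Prod.snd P
      exact_mod_cast this.le
    have himg : ((P.image Prod.snd).card : ℝ) ≤ (3 * (B : ℝ)) ^ 3 := by
      refine le_trans ?_ (card_bx_le 3 hB)
      have : P.image Prod.snd ⊆ bx 3 B := by
        intro y hy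
        obtain ⟨t, ht', rfl⟩ := mem_image.1 hy
        exact mem_bx.2 (hP t ht').2.2.2.1
      exact_mod_cast Finset.card_le_card this
    have hfib : ∀ y ∈ P.image Prod.snd, (((P.filter fun t => t.2 = y).card : ℕ) : ℝ) ≤
        132 * (A : ℝ) ^ 2 / (B : ℝ) ^ 2 := by
      intro y hy
      obtain ⟨t0, ht0, rfl⟩ := mem_image.1 hy
      obtain ⟨hpt0, -, -, hyB, hyB'⟩ := hP t0 ht0
      have hinj : Set.InjOn Prod.fst (↑(P.filter fun t => t.2 = t0.2) :
          Set ((Fin 4 → ℤ) × (Fin 3 → ℤ))) := by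
        intro s hs s' hs' hss
        rw [mem_coe, mem_filter] at hs hs'
        exact Prod.ext hss (hs.2.trans hs'.2.symm)
      rw [← Finset.card_image_of_injOn hinj]
      have h1 := lat_count hpt0.2.1 A hA ((P.filter fun t => t.2 = t0.2).image Prod.fst) (by
        intro x hx
        obtain ⟨s, hs, rfl⟩ := mem_image.1 hx
        rw [mem_filter] at hs
        obtain ⟨hpt, hxA, -⟩ := hP s hs.1
        refine ⟨hpt.1, ?_, hxA⟩
        rw [← hs.2]
        exact hpt.2.2.1)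
      refine h1.trans ?_
      have h2 : (B : ℝ) ≤ 2 * ht t0.2 := by exact_mod_cast hyB'
      have h3 : (0 : ℝ) < ht t0.2 := by linarith
      have h4 : 32 * (A : ℝ) ^ 2 / (ht t0.2 : ℝ) ^ 2 ≤ 128 * (A : ℝ) ^ 2 / (B : ℝ) ^ 2 := by
        rw [div_le_div_iff₀ (by positivity) (by positivity)]
        have : (B : ℝ) ^ 2 ≤ (2 * ht t0.2) ^ 2 := by gcongr
        nlinarith [sq_nonneg (A : ℝ)]
      have h5 : (4 : ℝ) ≤ 4 * (A : ℝ) ^ 2 / (B : ℝ) ^ 2 := by
        rw [le_div_iff₀ (by positivity)]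
        have : (B : ℝ) ≤ A := by exact_mod_cast h
        gcongr
      calc (4 : ℝ) + 32 * (A : ℝ) ^ 2 / (ht t0.2 : ℝ) ^ 2
          ≤ 4 * (A : ℝ) ^ 2 / (B : ℝ) ^ 2 + 128 * (A : ℝ) ^ 2 / (B : ℝ) ^ 2 := add_le_add h5 h4
        _ = 132 * (A : ℝ) ^ 2 / (B : ℝ) ^ 2 := by ring
    calc (P.card : ℝ) ≤ ∑ y ∈ P.image Prod.snd,
          (((P.filter fun t => t.2 = y).card : ℕ) : ℝ) := hcard
      _ ≤ ∑ y ∈ P.image Prod.snd, 132 * (A : ℝ) ^ 2 / (B : ℝ) ^ 2 := Finset.sum_le_sum hfib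
      _ = (P.image Prod.snd).card * (132 * (A : ℝ) ^ 2 / (B : ℝ) ^ 2) := by
          rw [Finset.sum_const, nsmul_eq_mul]
      _ ≤ (3 * (B : ℝ)) ^ 3 * (132 * (A : ℝ) ^ 2 / (B : ℝ) ^ 2) := by gcongr
      _ = 3564 * ((A : ℝ) ^ 2 * B) := by
          field_simp
          ring
      _ ≤ 3320064 * ((A : ℝ) ^ 2 * B) := by
          have : 0 ≤ (A : ℝ) ^ 2 * B := by positivity
          linarith
  · -- fix `x`
    have h1 := xcount A B hA h (P.image Prod.fst) (by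
      intro x hx
      obtain ⟨t, ht', rfl⟩ := mem_image.1 hx
      obtain ⟨hpt, hxA, hxA', hyB, hyB'⟩ := hP t ht'
      exact ⟨hpt.1, hxA, hxA', hpt.2.2.2, t.2, hpt.2.1, hpt.2.2.1, hyB, hyB'⟩)
    have h2 : P.card ≤ 2 * (P.image Prod.fst).card := by
      apply Finset.card_le_mul_card_image
      intro x hx
      obtain ⟨t0, ht0, rfl⟩ := mem_image.1 hx
      obtain ⟨hpt0, -⟩ := hP t0 ht0
      have hsub : (P.filter fun t => t.1 = t0.1) ⊆ {t0, (t0.1, -t0.2)} := by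
        intro t ht'
        rw [mem_filter] at ht'
        obtain ⟨hpt, -⟩ := hP t ht'.1
        rw [mem_insert, mem_singleton]
        have h3 : Inc t0.1 t.2 := by
          rw [← ht'.2]
          exact hpt.2.2.1
        rcases y_unique hpt0.2.1 hpt.2.1 hpt0.2.2.1 h3 hpt0.2.2.2 with h4 | h4
        · left
          exact Prod.ext ht'.2 h4
        · right
          exact Prod.ext ht'.2 h4
      exact (Finset.card_le_card hsub).trans Finset.card_le_two
    calc (P.card : ℝ) ≤ ((2 * (P.image Prod.fst).card : ℕ) : ℝ) := by exact_mod_cast h2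
      _ = 2 * ((P.image Prod.fst).card : ℝ) := by push_cast; ring
      _ ≤ 2 * (1660032 * ((A : ℝ) ^ 2 * B)) := by gcongr
      _ = 3320064 * ((A : ℝ) ^ 2 * B) := by ring

open Classical in
/-- The number of points with `x` in a dyadic box and bounded `y`. -/
theorem slab (A Y : ℕ) (hA : 1 ≤ A) (hY : 1 ≤ Y) (P : Finset ((Fin 4 → ℤ) × (Fin 3 → ℤ)))
    (hP : ∀ t ∈ P, Pt t.1 t.2 ∧ ht t.1 ≤ A ∧ A ≤ 2 * ht t.1 ∧ ht t.2 ≤ Y) :
    (P.card : ℝ) ≤ 13280256 * ((A : ℝ) ^ 2 * Y) := by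
  set L := Nat.log 2 (2 * Y) with hL
  have hcov : P ⊆ (range (L + 1)).biUnion fun j => P.filter fun t => dy t.2 = j := by
    intro t ht'
    obtain ⟨hpt, -, -, hyY⟩ := hP t ht'
    rw [mem_biUnion]
    refine ⟨dy t.2, ?_, ?_⟩
    · rw [mem_range]
      apply Nat.lt_succ_of_le
      apply Nat.le_log_of_pow_le (by norm_num)
      exact ((dy_spec (ht_pos (prim_ne hpt.2.1))).2).trans (Nat.mul_le_mul_left _ hyY)
    · rw [mem_filter]
      exact ⟨ht', rfl⟩
  have hlev : ∀ j ∈ range (L + 1), (((P.filter fun t => dy t.2 = j).card : ℕ) : ℝ) ≤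
      3320064 * ((A : ℝ) ^ 2 * 2 ^ j) := by
    intro j _
    have h := box A (2 ^ j) hA Nat.one_le_two_pow (P.filter fun t => dy t.2 = j) (by
      intro t ht'
      rw [mem_filter] at ht'
      obtain ⟨hpt, hxA, hxA', -⟩ := hP t ht'.1
      have h1 := dy_spec (ht_pos (prim_ne hpt.2.1))
      rw [ht'.2] at h1
      exact ⟨hpt, hxA, hxA', h1.1, h1.2⟩)
    refine h.trans (le_of_eq ?_)
    push_cast
    ring
  have hgeo : ∀ L : ℕ, ∑ j ∈ range (L + 1), (2 : ℝ) ^ j ≤ 2 * 2 ^ L := by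
    intro L
    induction L with
    | zero => norm_num
    | succ n ih =>
      rw [Finset.sum_range_succ, pow_succ]
      linarith
  have h2L : (2 : ℝ) ^ L ≤ 2 * Y := by
    have := Nat.pow_log_le_self 2 (show 2 * Y ≠ 0 by omega)
    exact_mod_cast this
  calc (P.card : ℝ) ≤ ∑ j ∈ range (L + 1), (((P.filter fun t => dy t.2 = j).card : ℕ) : ℝ) := by
        have h1 := (Finset.card_le_card hcov).trans Finset.card_biUnion_le
        exact_mod_cast h1
    _ ≤ ∑ j ∈ range (L + 1), 3320064 * ((A : ℝ) ^ 2 * 2 ^ j) := Finset.sum_le_sum hlev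
    _ = 3320064 * ((A : ℝ) ^ 2 * ∑ j ∈ range (L + 1), (2 : ℝ) ^ j) := by
        rw [Finset.mul_sum, Finset.mul_sum]
    _ ≤ 3320064 * ((A : ℝ) ^ 2 * (2 * (2 * Y))) := by
        have := (hgeo L).trans (show 2 * (2 : ℝ) ^ L ≤ 2 * (2 * Y) by linarith)
        gcongr
    _ = 13280256 * ((A : ℝ) ^ 2 * Y) := by ring

theorem rep_prim {m : ℕ} {v : Fin m → ℤ} (h : Rep v) : Prim v := by
  obtain ⟨h1, i, hi, -⟩ := h
  obtain ⟨g, u, hg, hu, hd⟩ := Pool.Agent.H548.WM.exists_gcd v ⟨i, hi.ne'⟩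
  have h2 : (g : ℤ) ∣ Finset.univ.gcd v := Finset.dvd_gcd fun k _ => hd k
  rw [h1] at h2
  have h3 : g = 1 := Nat.dvd_one.1 (by exact_mod_cast h2)
  rw [h3] at hu
  exact ⟨u, by exact_mod_cast hu⟩

end Pool.Agent.H548.TC
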