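import Mathlib
import Pool.Agent.H548.TC.Cnt

/-! All line bundles. -/

namespace Pool.Agent.H548.TC

open Finset
open Pool.Agent.H548.WM (ht bx le_ht le_ht' ht_le exists_ht mem_bx card_bx_le dy dy_spec ht_pos
  Rep)

/-- The exponent: the infimum of all `t` such that `t L + K` is in the cone generated by the
classes `(0,1)` and `(2,-1)`, where `L = (l 0, l 1)` and `K = (-2,-1)`. -/
noncomputable def fuj (l : Fin 2 → ℝ) : ℝ :=
  sInf {t : ℝ | ∃ c : Fin 2 → ℝ, (∀ i, 0 ≤ c i) ∧ t * l 0 - 2 = 2 * c 1 ∧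
    t * l 1 - 1 = c 0 - c 1}

theorem fuj_set (l : Fin 2 → ℝ) :
    {t : ℝ | ∃ c : Fin 2 → ℝ, (∀ i, 0 ≤ c i) ∧ t * l 0 - 2 = 2 * c 1 ∧
      t * l 1 - 1 = c 0 - c 1} =
    {t : ℝ | 0 ≤ t * l 0 - 2 ∧ 0 ≤ (t * l 0 - 2) + 2 * (t * l 1 - 1)} := by
  ext t
  constructor
  · rintro ⟨c, hc, h0, h1⟩
    have c0 := hc 0
    have c1 := hc 1
    refine ⟨?_, ?_⟩ <;> linarith
  · rintro ⟨h0, h1⟩
    refine ⟨![(t * l 1 - 1) + (t * l 0 - 2) / 2, (t * l 0 - 2) / 2], ?_, ?_, ?_⟩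
    · intro i
      fin_cases i
      · show 0 ≤ (t * l 1 - 1) + (t * l 0 - 2) / 2
        linarith
      · show 0 ≤ (t * l 0 - 2) / 2
        linarith
    · simp only [Matrix.cons_val]
      ring
    · simp only [Matrix.cons_val]
      ring

theorem fuj_eq (l : Fin 2 → ℝ) (hl0 : 0 < l 0) (hl1 : 0 ≤ l 1) :
    fuj l = max (2 / l 0) (4 / (l 0 + 2 * l 1)) := by
  unfold fuj
  rw [fuj_set]
  have : {t : ℝ | 0 ≤ t * l 0 - 2 ∧ 0 ≤ (t * l 0 - 2) + 2 * (t * l 1 - 1)} =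
      Set.Ici (max (2 / l 0) (4 / (l 0 + 2 * l 1))) := by
    ext t
    have h2 : 0 < l 0 + 2 * l 1 := by linarith
    rw [Set.mem_ofPred_eq, Set.mem_Ici, max_le_iff, div_le_iff₀ hl0, div_le_iff₀ h2]
    constructor
    · rintro ⟨h0, h1⟩
      exact ⟨by linarith, by linarith⟩
    · rintro ⟨h0, h1⟩
      exact ⟨by linarith, by linarith⟩
  rw [this]
  exact csInf_Ici

/-- Comparison of the heights. -/
theorem compare (x y l0 l1 t T : ℝ) (hx : 1 ≤ x) (hy : 1 ≤ y) (hyx : y ≤ 2 * x ^ 2)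
    (hl1 : 0 ≤ l1) (ht : 0 ≤ t) (h0 : 0 ≤ t * l0 - 2)
    (h1 : 0 ≤ (t * l0 - 2) + 2 * (t * l1 - 1)) (hT : x ^ l0 * y ^ l1 ≤ T) :
    x ^ 2 * y ≤ 2 * T ^ t := by
  have x0 : 0 < x := by linarith
  have y0 : 0 < y := by linarith
  have hH : (x ^ l0 * y ^ l1) ^ t ≤ T ^ t := Real.rpow_le_rpow (by positivity) hT ht
  have hHe : (x ^ l0 * y ^ l1) ^ t = x ^ (t * l0) * y ^ (t * l1) := by
    rw [Real.mul_rpow (by positivity) (by positivity), ← Real.rpow_mul x0.le,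
      ← Real.rpow_mul y0.le]
    simp only [mul_comm]
  have htl1 : 0 ≤ t * l1 := mul_nonneg ht hl1
  have hkey : x ^ (2 - t * l0) * y ^ (1 - t * l1) ≤ 2 := by
    rcases le_total (1 - t * l1) 0 with h | h
    · calc x ^ (2 - t * l0) * y ^ (1 - t * l1) ≤ 1 * 1 := by
            gcongr
            · exact Real.rpow_le_one_of_one_le_of_nonpos hx (by linarith)
            · exact Real.rpow_le_one_of_one_le_of_nonpos hy h
        _ ≤ 2 := by norm_num
    · have e1 : y ^ (1 - t * l1) ≤ (2 * x ^ 2) ^ (1 - t * l1) :=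
        Real.rpow_le_rpow y0.le hyx h
      have e2 : (2 * x ^ 2) ^ (1 - t * l1) = 2 ^ (1 - t * l1) * x ^ (2 * (1 - t * l1)) := by
        rw [Real.mul_rpow (by norm_num) (by positivity), ← Real.rpow_natCast x 2,
          ← Real.rpow_mul x0.le]
        norm_num
      calc x ^ (2 - t * l0) * y ^ (1 - t * l1)
          ≤ x ^ (2 - t * l0) * (2 ^ (1 - t * l1) * x ^ (2 * (1 - t * l1))) := by
            rw [← e2]
            gcongr
        _ = 2 ^ (1 - t * l1) * x ^ ((2 - t * l0) + 2 * (1 - t * l1)) := by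
            rw [Real.rpow_add x0]
            ring
        _ ≤ 2 ^ (1 : ℝ) * 1 := by
            gcongr
            · norm_num
            · linarith
            · exact Real.rpow_le_one_of_one_le_of_nonpos hx (by linarith)
        _ = 2 := by norm_num
  calc x ^ 2 * y = (x ^ (2 - t * l0) * y ^ (1 - t * l1)) * (x ^ (t * l0) * y ^ (t * l1)) := by
        have ex : x ^ 2 = x ^ (2 - t * l0) * x ^ (t * l0) := by
          rw [← Real.rpow_add x0]
          have : 2 - t * l0 + t * l0 = ((2 : ℕ) : ℝ) := by push_cast; ring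
          rw [this, Real.rpow_natCast]
        have ey : y = y ^ (1 - t * l1) * y ^ (t * l1) := by
          rw [← Real.rpow_add y0]
          have : 1 - t * l1 + t * l1 = 1 := by ring
          rw [this, Real.rpow_one]
        calc x ^ 2 * y = (x ^ (2 - t * l0) * x ^ (t * l0)) * (y ^ (1 - t * l1) * y ^ (t * l1)) := by
              rw [← ex, ← ey]
          _ = _ := by ring
    _ ≤ 2 * T ^ t := by
        rw [← hHe]
        gcongr

open Classical in
/-- The upper bound for all line bundles. -/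
theorem upper (l : Fin 2 → ℝ) (hl0 : 0 < l 0) (hl1 : 0 ≤ l 1) :
    ∃ C : ℝ, ∀ T : ℝ, 1 ≤ T →
      {t : (Fin 4 → ℤ) × (Fin 3 → ℤ) | Rep t.1 ∧ Rep t.2 ∧ Inc t.1 t.2 ∧ hes t.1 ≠ 0 ∧
        (ht t.1 : ℝ) ^ l 0 * (ht t.2 : ℝ) ^ l 1 ≤ T}.Finite ∧
      ({t : (Fin 4 → ℤ) × (Fin 3 → ℤ) | Rep t.1 ∧ Rep t.2 ∧ Inc t.1 t.2 ∧ hes t.1 ≠ 0 ∧
        (ht t.1 : ℝ) ^ l 0 * (ht t.2 : ℝ) ^ l 1 ≤ T}.ncard : ℝ) ≤
        C * T ^ fuj l * (1 + Real.log T) := by
  have hfuj := fuj_eq l hl0 hl1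
  have h2 : 0 < l 0 + 2 * l 1 := by linarith
  set a := fuj l with ha
  have ha0 : 0 ≤ a * l 0 - 2 := by
    have h1 : 2 / l 0 ≤ a := by rw [hfuj]; exact le_max_left _ _
    rw [div_le_iff₀ hl0] at h1
    linarith
  have ha1 : 0 ≤ (a * l 0 - 2) + 2 * (a * l 1 - 1) := by
    have h1 : 4 / (l 0 + 2 * l 1) ≤ a := by rw [hfuj]; exact le_max_right _ _
    rw [div_le_iff₀ h2] at h1
    linarith
  have hapos : 0 ≤ a := by
    have h1 : 2 / l 0 ≤ a := by rw [hfuj]; exact le_max_left _ _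
    have : 0 < 2 / l 0 := by positivity
    linarith
  have hlog2 : 0 < Real.log 2 := Real.log_pos (by norm_num)
  refine ⟨106242048 * (2 + 1 / (l 0 * Real.log 2)), ?_⟩
  intro T hT
  have hT0 : 0 < T := by linarith
  set X0 := ⌊T ^ (1 / l 0)⌋₊ with hX0
  have hTl : (1 : ℝ) ≤ T ^ (1 / l 0) := Real.one_le_rpow hT (by positivity)
  have hX01 : 1 ≤ X0 := by
    rw [hX0, Nat.one_le_floor_iff]
    exact hTl
  set P : Finset ((Fin 4 → ℤ) × (Fin 3 → ℤ)) := ((bx 4 X0) ×ˢ (bx 3 (2 * X0 ^ 2))).filter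
    fun t => Rep t.1 ∧ Rep t.2 ∧ Inc t.1 t.2 ∧ hes t.1 ≠ 0 ∧
      (ht t.1 : ℝ) ^ l 0 * (ht t.2 : ℝ) ^ l 1 ≤ T with hP
  have hxX : ∀ x : Fin 4 → ℤ, ∀ y : Fin 3 → ℤ, Rep x → Rep y →
      (ht x : ℝ) ^ l 0 * (ht y : ℝ) ^ l 1 ≤ T → ht x ≤ X0 := by
    intro x y hx hy h
    have n0 : (1 : ℝ) ≤ ht x := by exact_mod_cast ht_pos (prim_ne (rep_prim hx))
    have n1 : (1 : ℝ) ≤ ht y := by exact_mod_cast ht_pos (prim_ne (rep_prim hy))
    have e1 : (1 : ℝ) ≤ (ht y : ℝ) ^ l 1 := Real.one_le_rpow n1 hl1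
    have e2 : (ht x : ℝ) ^ l 0 ≤ T := by
      have : 0 ≤ (ht x : ℝ) ^ l 0 := by positivity
      nlinarith
    apply Nat.le_floor
    have e3 : ((ht x : ℝ) ^ l 0) ^ (1 / l 0) ≤ T ^ (1 / l 0) :=
      Real.rpow_le_rpow (by positivity) e2 (by positivity)
    rwa [← Real.rpow_mul (by positivity), mul_one_div_cancel hl0.ne', Real.rpow_one] at e3
  have hset : {t : (Fin 4 → ℤ) × (Fin 3 → ℤ) | Rep t.1 ∧ Rep t.2 ∧ Inc t.1 t.2 ∧ hes t.1 ≠ 0 ∧
      (ht t.1 : ℝ) ^ l 0 * (ht t.2 : ℝ) ^ l 1 ≤ T} = ↑P := by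
    ext t
    rw [hP, mem_coe, mem_filter, mem_product, mem_bx, mem_bx]
    constructor
    · rintro ⟨h1, h2, h3, h4, h5⟩
      have h6 := hxX t.1 t.2 h1 h2 h5
      refine ⟨⟨h6, ?_⟩, h1, h2, h3, h4, h5⟩
      exact (y_le (rep_prim h2) h3 h4).trans (by gcongr)
    · rintro ⟨-, h⟩
      exact h
  rw [hset]
  refine ⟨P.finite_toSet, ?_⟩
  rw [Set.ncard_coe_finset]
  set L := Nat.log 2 (2 * X0) with hL
  have hcov : P ⊆ (range (L + 1)).biUnion fun j => P.filter fun t => dy t.1 = j := by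
    intro t ht'
    have ht'' := ht'
    rw [hP, mem_filter, mem_product, mem_bx, mem_bx] at ht''
    obtain ⟨⟨hx, -⟩, h1, -⟩ := ht''
    rw [mem_biUnion]
    refine ⟨dy t.1, ?_, ?_⟩
    · rw [mem_range]
      apply Nat.lt_succ_of_le
      apply Nat.le_log_of_pow_le (by norm_num)
      exact ((dy_spec (ht_pos (prim_ne (rep_prim h1)))).2).trans (Nat.mul_le_mul_left _ hx)
    · rw [mem_filter]
      exact ⟨ht', rfl⟩
  have hlev : ∀ j ∈ range (L + 1), (((P.filter fun t => dy t.1 = j).card : ℕ) : ℝ) ≤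
      106242048 * T ^ a := by
    intro j _
    set Q := P.filter fun t => dy t.1 = j with hQ
    have hTa : (0 : ℝ) ≤ T ^ a := by positivity
    rcases Q.eq_empty_or_nonempty with h0 | hne
    · rw [h0]
      simp only [card_empty, Nat.cast_zero]
      positivity
    obtain ⟨s, hs, hmax⟩ := Finset.exists_max_image Q (fun t => ht t.2) hne
    have hmem : ∀ t ∈ Q, Rep t.1 ∧ Rep t.2 ∧ Inc t.1 t.2 ∧ hes t.1 ≠ 0 ∧
        (ht t.1 : ℝ) ^ l 0 * (ht t.2 : ℝ) ^ l 1 ≤ T ∧ dy t.1 = j := by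
      intro t ht'
      rw [hQ, mem_filter, hP, mem_filter] at ht'
      tauto
    obtain ⟨s1, s2, s3, s4, s5, s6⟩ := hmem s hs
    have n0 : 1 ≤ ht s.1 := ht_pos (prim_ne (rep_prim s1))
    have n1 : 1 ≤ ht s.2 := ht_pos (prim_ne (rep_prim s2))
    have h1 := slab (2 ^ j) (ht s.2) Nat.one_le_two_pow n1 Q (by
      intro t ht'
      obtain ⟨t1, t2, t3, t4, -, t6⟩ := hmem t ht'
      have h2 := dy_spec (ht_pos (prim_ne (rep_prim t1)))
      rw [t6] at h2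
      exact ⟨⟨rep_prim t1, rep_prim t2, t3, t4⟩, h2.1, h2.2, hmax t ht'⟩)
    have h3 := (dy_spec n0).2
    rw [s6] at h3
    have h4 : ((2 ^ j : ℕ) : ℝ) ≤ 2 * ht s.1 := by exact_mod_cast h3
    have h5 := compare (ht s.1) (ht s.2) (l 0) (l 1) a T (by exact_mod_cast n0)
      (by exact_mod_cast n1) (by exact_mod_cast y_le (rep_prim s2) s3 s4) hl1 hapos ha0 ha1 s5
    calc (Q.card : ℝ) ≤ 13280256 * (((2 ^ j : ℕ) : ℝ) ^ 2 * ht s.2) := h1
      _ ≤ 13280256 * ((2 * ht s.1) ^ 2 * ht s.2) := by gcongr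
      _ = 53121024 * ((ht s.1 : ℝ) ^ 2 * ht s.2) := by ring
      _ ≤ 53121024 * (2 * T ^ a) := by gcongr
      _ = 106242048 * T ^ a := by ring
  have hLb : ((L : ℝ) + 1) ≤ (2 + 1 / (l 0 * Real.log 2)) * (1 + Real.log T) := by
    have hlT : 0 ≤ Real.log T := Real.log_nonneg hT
    have h1 : ((2 : ℝ) ^ L) ≤ 2 * X0 := by
      have := Nat.pow_log_le_self 2 (show 2 * X0 ≠ 0 by omega)
      exact_mod_cast this
    have h2 : (X0 : ℝ) ≤ T ^ (1 / l 0) := Nat.floor_le (by positivity)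
    have h3 : (L : ℝ) * Real.log 2 ≤ Real.log 2 + (1 / l 0) * Real.log T := by
      have h4 : Real.log ((2 : ℝ) ^ L) ≤ Real.log (2 * T ^ (1 / l 0)) :=
        Real.log_le_log (by positivity) (h1.trans (by gcongr))
      rw [Real.log_pow, Real.log_mul (by norm_num) (by positivity), Real.log_rpow hT0] at h4
      exact h4
    have h4 : (L : ℝ) ≤ 1 + (1 / l 0) * Real.log T / Real.log 2 := by
      rw [← sub_le_iff_le_add', le_div_iff₀ hlog2]
      linarith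
    have h5 : (1 / l 0) * Real.log T / Real.log 2 = 1 / (l 0 * Real.log 2) * Real.log T := by
      field_simp
    rw [h5] at h4
    have h6 : 0 ≤ 1 / (l 0 * Real.log 2) := by positivity
    nlinarith
  calc (P.card : ℝ) ≤ ∑ j ∈ range (L + 1), (((P.filter fun t => dy t.1 = j).card : ℕ) : ℝ) := by
        have h1 := (Finset.card_le_card hcov).trans Finset.card_biUnion_le
        exact_mod_cast h1
    _ ≤ ∑ j ∈ range (L + 1), 106242048 * T ^ a := Finset.sum_le_sum hlev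
    _ = ((L : ℝ) + 1) * (106242048 * T ^ a) := by
        rw [Finset.sum_const, card_range, nsmul_eq_mul]
        push_cast
        ring
    _ ≤ ((2 + 1 / (l 0 * Real.log 2)) * (1 + Real.log T)) * (106242048 * T ^ a) := by
        gcongr
    _ = 106242048 * (2 + 1 / (l 0 * Real.log 2)) * T ^ a * (1 + Real.log T) := by ring

/-- The open set is not empty. -/
theorem nonempty : ∃ (x : Fin 4 → ℤ) (y : Fin 3 → ℤ), Rep x ∧ Rep y ∧ Inc x y ∧ hes x ≠ 0 := by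
  refine ⟨![1, 0, 0, 1], ![0, 1, 0], ⟨?_, 0, by simp, by simp⟩, ⟨?_, 1, by simp, ?_⟩, ?_, ?_⟩
  · decide
  · decide
  · intro j hj
    fin_cases j
    · rfl
    · exact absurd hj (by decide)
    · exact absurd hj (by decide)
  · constructor <;> simp
  · intro h
    have := congrFun h 1
    simp [hes] at this

end Pool.Agent.H548.TC
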