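import Mathlib
import Pool.Agent.H548.TC.All
import Pool.Agent.W831.QO.L2

/-! The lower bound. -/

namespace Pool.Agent.H548.TC

open Finset
open Pool.Agent.H548.WM (ht bx le_ht le_ht' ht_le exists_ht mem_bx card_bx_le dy dy_spec ht_pos
  Rep)

theorem prim_gcd {m : ℕ} {v : Fin m → ℤ} (h : Prim v) : Finset.univ.gcd v = 1 := by
  obtain ⟨u, hu⟩ := h
  have h1 : Finset.univ.gcd v ∣ 1 := by
    rw [← hu]
    exact Finset.dvd_sum fun i hi => Dvd.dvd.mul_left (Finset.gcd_dvd hi) _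
  have h2 : normalize (Finset.univ.gcd v) = Finset.univ.gcd v := Finset.normalize_gcd
  rw [← h2]
  exact normalize_eq_one.2 (isUnit_of_dvd_one h1)

theorem ht_eq (v : Fin 3 → ℤ) : (ht v : ℤ) = Pool.Agent.W978.QN.nm v := by
  apply le_antisymm
  · obtain ⟨i, hi⟩ := exists_ht (by norm_num) v
    rw [← hi]
    exact Pool.Agent.W978.QN.le_nm v i
  · exact Pool.Agent.W978.QN.nm_le fun i => le_ht' v i

/-- Many primitive vectors `y`. -/
theorem many_y : ∃ (c : ℝ) (K : ℕ), 0 < c ∧ ∀ X : ℕ, K ≤ X → ∃ Y : Finset (Fin 3 → ℤ),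
    (∀ y ∈ Y, Rep y ∧ Prim y ∧ ht y ≤ X ∧ X < 2 * ht y ∧ y 0 ≠ 0) ∧ c * (X : ℝ) ^ 3 ≤ Y.card := by
  classical
  set b : Fin 3 → Fin 3 → Fin 3 → ℤ := fun i j k => if i = j ∧ j = k then 1 else 0 with hb
  have hdet : ∀ {R : Type} [CommRing R] (p : Fin 3 → R),
      (Matrix.of (Pool.Agent.W978.QN.mp b p)).det = p 0 * p 1 * p 2 := by
    intro R _ p
    rw [Matrix.det_fin_three]
    simp [Pool.Agent.W978.QN.mp, hb]
  obtain ⟨c, K, hc, h⟩ := Pool.Agent.W831.QO.l2 b ⟨fun _ => 1, by rw [hdet]; norm_num⟩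
  refine ⟨c, K, hc, fun X hX => ⟨_, ?_, h X hX⟩⟩
  intro y hy
  rw [mem_filter, Pool.Agent.W978.QN.mem_bx] at hy
  obtain ⟨h1, ⟨h2, h3⟩, h4, h5⟩ := hy
  have hp : Prim y := h2
  have h6 : Pool.Agent.W978.QN.dm (Pool.Agent.W978.QN.mp b y) = y 0 * y 1 * y 2 := hdet y
  rw [h6] at h5
  rw [← ht_eq] at h1 h4
  refine ⟨⟨prim_gcd hp, ?_⟩, hp, by exact_mod_cast h1, by exact_mod_cast h4, ?_⟩
  · rcases h3 with h | ⟨h, h'⟩ | ⟨h, h', h''⟩
    · exact ⟨0, h, fun j hj => absurd hj (by simp)⟩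
    · refine ⟨1, h', fun j hj => ?_⟩
      have : j = 0 := by
        apply Fin.ext
        have := Fin.lt_def.1 hj
        simp only [Fin.val_one, Fin.val_zero] at this ⊢
        omega
      rw [this, h]
    · refine ⟨2, by rw [h'']; norm_num, fun j hj => ?_⟩
      fin_cases j
      · exact h
      · exact h'
      · exact absurd hj (by decide)
  · intro h0
    apply h5
    rw [h0]
    ring

/-- The integer points of the lattice: pigeonhole. -/
theorem many_x {y : Fin 3 → ℤ} {A B : ℕ} (hA : 1 ≤ A) (hB : 1 ≤ B) (hy : ht y ≤ B) :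
    ∃ S : Finset (Fin 4 → ℤ), (∀ x ∈ S, Inc x y ∧ ht x ≤ A) ∧
      (A : ℝ) ^ 2 ≤ 49 * (B : ℝ) ^ 2 * S.card := by
  classical
  set D : Finset (Fin 4 → ℤ) := Fintype.piFinset fun _ => Finset.Icc (0 : ℤ) A with hD
  have hDc : D.card = (A + 1) ^ 4 := by
    rw [hD, Fintype.card_piFinset]
    simp only [Int.card_Icc, prod_const, card_univ, Fintype.card_fin]
    congr 1
  set f : (Fin 4 → ℤ) → ℤ × ℤ := fun x =>
    (x 0 * y 0 + x 1 * y 1 + x 2 * y 2, x 1 * y 0 + x 2 * y 1 + x 3 * y 2) with hf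
  set V : Finset (ℤ × ℤ) := (Finset.Icc (-(3 * A * B : ℤ)) (3 * A * B)) ×ˢ
    (Finset.Icc (-(3 * A * B : ℤ)) (3 * A * B)) with hV
  have hVc : V.card = (6 * A * B + 1) * (6 * A * B + 1) := by
    rw [hV, card_product]
    simp only [Int.card_Icc]
    have : ((3 * A * B : ℤ) + 1 - -(3 * A * B : ℤ)).toNat = 6 * A * B + 1 := by
      have h1 : ((3 * A * B : ℤ) + 1 - -(3 * A * B : ℤ)) = ((6 * A * B + 1 : ℕ) : ℤ) := by
        push_cast; ring
      rw [h1, Int.toNat_natCast]
    rw [this]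
  have hyi : ∀ i, |y i| ≤ (B : ℤ) := fun i => (le_ht' y i).trans (by exact_mod_cast hy)
  have hmaps : ∀ x ∈ D, f x ∈ V := by
    intro x hx
    rw [hD, Fintype.mem_piFinset] at hx
    have hxi : ∀ i, |x i| ≤ (A : ℤ) := fun i => by
      have := mem_Icc.1 (hx i)
      rw [abs_of_nonneg this.1]
      exact this.2
    have h3 : ∀ i j k, |x i * y 0 + x j * y 1 + x k * y 2| ≤ 3 * A * B := by
      intro i j k
      have e : ∀ i j, |x i * y j| ≤ (A : ℤ) * B := fun i j => by
        rw [abs_mul]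
        exact mul_le_mul (hxi i) (hyi j) (abs_nonneg _) (by positivity)
      calc |x i * y 0 + x j * y 1 + x k * y 2| ≤ |x i * y 0| + |x j * y 1| + |x k * y 2| :=
            abs_add_three _ _ _
        _ ≤ (A : ℤ) * B + A * B + A * B := add_le_add (add_le_add (e _ _) (e _ _)) (e _ _)
        _ = 3 * A * B := by ring
    rw [hV, mem_product, mem_Icc, mem_Icc, ← abs_le, ← abs_le]
    exact ⟨h3 0 1 2, h3 1 2 3⟩
  have hVne : V.Nonempty := ⟨f 0, hmaps 0 (by
    rw [hD, Fintype.mem_piFinset]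
    intro i
    simp)⟩
  obtain ⟨v, hv, hmax⟩ := Finset.exists_max_image V
    (fun v => (D.filter fun x => f x = v).card) hVne
  have hle := Finset.card_le_mul_card_image_of_maps_to hmaps
    (D.filter fun x => f x = v).card hmax
  rw [hDc, hVc] at hle
  set E := D.filter fun x => f x = v with hE
  have hEne : E.Nonempty := by
    rw [← Finset.card_pos]
    by_contra hc
    have : E.card = 0 := by omega
    rw [this] at hle
    have : 0 < (A + 1) ^ 4 := by positivity
    omega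
  obtain ⟨x₀, hx₀⟩ := hEne
  refine ⟨E.image fun x => x - x₀, ?_, ?_⟩
  · intro z hz
    obtain ⟨x, hx, rfl⟩ := mem_image.1 hz
    rw [hE, mem_filter, hD, Fintype.mem_piFinset] at hx hx₀
    obtain ⟨hx1, hx2⟩ := hx
    obtain ⟨hx3, hx4⟩ := hx₀
    have h5 := hx2.trans hx4.symm
    simp only [hf, Prod.mk.injEq] at h5
    refine ⟨⟨?_, ?_⟩, ?_⟩
    · show (x 0 - x₀ 0) * y 0 + (x 1 - x₀ 1) * y 1 + (x 2 - x₀ 2) * y 2 = 0
      linear_combination h5.1
    · show (x 1 - x₀ 1) * y 0 + (x 2 - x₀ 2) * y 1 + (x 3 - x₀ 3) * y 2 = 0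
      linear_combination h5.2
    · apply ht_le
      intro i
      have a1 := mem_Icc.1 (hx1 i)
      have a2 := mem_Icc.1 (hx3 i)
      show |x i - x₀ i| ≤ (A : ℤ)
      rw [abs_le]
      constructor <;> linarith [a1.1, a1.2, a2.1, a2.2]
  · have hci : (E.image fun x => x - x₀).card = E.card :=
      Finset.card_image_of_injective _ fun x z h => by
        simpa using h
    rw [hci]
    have hA' : (1 : ℝ) ≤ A := by exact_mod_cast hA
    have hB' : (1 : ℝ) ≤ B := by exact_mod_cast hB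
    have hle' : ((A : ℝ) + 1) ^ 4 ≤ E.card * ((6 * A * B + 1) * (6 * A * B + 1)) := by
      exact_mod_cast hle
    have hAB : (1 : ℝ) ≤ A * B := by nlinarith
    have h1 : (A : ℝ) ^ 4 ≤ (E.card : ℝ) * (49 * ((A : ℝ) ^ 2 * (B : ℝ) ^ 2)) := by
      have e1 : (A : ℝ) ^ 4 ≤ ((A : ℝ) + 1) ^ 4 := by
        gcongr
        linarith
      have e2 : (6 * (A : ℝ) * B + 1) ≤ 7 * (A * B) := by nlinarith
      calc (A : ℝ) ^ 4 ≤ ((A : ℝ) + 1) ^ 4 := e1
        _ ≤ (E.card : ℝ) * ((6 * A * B + 1) * (6 * A * B + 1)) := hle'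
        _ ≤ (E.card : ℝ) * ((7 * (A * B)) * (7 * (A * B))) := by
            gcongr
        _ = (E.card : ℝ) * (49 * ((A : ℝ) ^ 2 * (B : ℝ) ^ 2)) := by ring
    have h2 : (A : ℝ) ^ 2 * A ^ 2 ≤ (49 * (B : ℝ) ^ 2 * E.card) * A ^ 2 := by nlinarith
    exact le_of_mul_le_mul_right h2 (by positivity)

/-- The primitive points of the lattice. -/
noncomputable def FP (y : Fin 3 → ℤ) (R : ℕ) : Finset (Fin 4 → ℤ) := by
  classical
  exact (bx 4 R).filter fun x => Prim x ∧ Inc x y

theorem mem_FP {y : Fin 3 → ℤ} {R : ℕ} {x : Fin 4 → ℤ} :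
    x ∈ FP y R ↔ ht x ≤ R ∧ Prim x ∧ Inc x y := by
  simp only [FP, Finset.mem_filter, mem_bx]

theorem FP_mono {y : Fin 3 → ℤ} {R R' : ℕ} (h : R ≤ R') : FP y R ⊆ FP y R' := by
  intro x hx
  rw [mem_FP] at hx ⊢
  exact ⟨hx.1.trans h, hx.2⟩

theorem sum_tail (D N : ℕ) (hD : 1 ≤ D) :
    ∑ d ∈ (Finset.Icc 1 N).filter (fun d => D < d), (1 / (d : ℝ) ^ 2) ≤ 1 / (D : ℝ) := by
  have h : ∀ N : ℕ, D ≤ N → ∑ d ∈ (Finset.Icc 1 N).filter (fun d => D < d),
      (1 / (d : ℝ) ^ 2) ≤ 1 / (D : ℝ) - 1 / (N : ℝ) := by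
    intro N hN
    induction N, hN using Nat.le_induction with
    | base =>
      have : (Finset.Icc 1 D).filter (fun d => D < d) = ∅ := by
        apply Finset.filter_eq_empty_iff.2
        intro x hx
        rw [mem_Icc] at hx
        omega
      rw [this]
      simp
    | succ n hn ih =>
      have h1 : (Finset.Icc 1 (n + 1)).filter (fun d => D < d) =
          insert (n + 1) ((Finset.Icc 1 n).filter (fun d => D < d)) := by
        ext x
        rw [mem_insert, mem_filter, mem_filter, mem_Icc, mem_Icc]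
        omega
      rw [h1, Finset.sum_insert (by simp)]
      have hn' : (0 : ℝ) < n := by exact_mod_cast (by omega : 0 < n)
      have h2 : 1 / ((n + 1 : ℕ) : ℝ) ^ 2 ≤ 1 / n - 1 / ((n + 1 : ℕ) : ℝ) := by
        push_cast
        rw [div_sub_div _ _ hn'.ne' (by positivity), div_le_div_iff₀ (by positivity)
          (by positivity)]
        nlinarith
      linarith
  rcases le_total D N with hN | hN
  · have h1 := h N hN
    have : (0 : ℝ) ≤ 1 / (N : ℝ) := by positivity
    linarith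
  · have : (Finset.Icc 1 N).filter (fun d => D < d) = ∅ := by
      apply Finset.filter_eq_empty_iff.2
      intro x hx
      rw [mem_Icc] at hx
      omega
    rw [this, Finset.sum_empty]
    positivity

theorem many_prim {y : Fin 3 → ℤ} (hyp : Prim y) {A B : ℕ} (hB : 1 ≤ B) (hy : ht y ≤ B)
    (hy' : B ≤ 2 * ht y) (hAB : 980 * B ^ 2 ≤ A) :
    (A : ℝ) ^ 2 ≤ 2458624 * (B : ℝ) ^ 2 * (FP y A).card := by
  classical
  have hA : 1 ≤ A := by nlinarith
  obtain ⟨S, hS, hSc⟩ := many_x hA hB hy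
  have hA' : (1 : ℝ) ≤ A := by exact_mod_cast hA
  have hB' : (1 : ℝ) ≤ B := by exact_mod_cast hB
  -- the covering
  have hcov : S ⊆ {0} ∪ (Finset.Icc 1 A).biUnion fun d => (FP y (A / d)).image
      fun x k => (d : ℤ) * x k := by
    intro x hx
    obtain ⟨hI, hh⟩ := hS x hx
    rw [mem_union, mem_singleton]
    by_cases h0 : x = 0
    · left; exact h0
    right
    have hex : ∃ k, x k ≠ 0 := by
      by_contra hc
      push Not at hc
      exact h0 (funext hc)
    obtain ⟨g, u, hg, hu, hd⟩ := Pool.Agent.H548.WM.exists_gcd x hex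
    choose z hz using hd
    have hgZ : (g : ℤ) ≠ 0 := by exact_mod_cast (by omega : g ≠ 0)
    have hzp : Prim z := by
      refine ⟨u, ?_⟩
      have : (g : ℤ) * ∑ i, u i * z i = g * 1 := by
        calc (g : ℤ) * ∑ i, u i * z i = ∑ i, u i * x i := by
              rw [Finset.mul_sum]
              refine Finset.sum_congr rfl fun k _ => ?_
              rw [hz k]
              ring
          _ = g * 1 := by rw [hu, mul_one]
      exact mul_left_cancel₀ hgZ this
    have hzI : Inc z y := by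
      obtain ⟨r1, r2⟩ := hI
      rw [hz 0, hz 1, hz 2] at r1
      rw [hz 1, hz 2, hz 3] at r2
      constructor
      · apply mul_left_cancel₀ hgZ
        linear_combination r1
      · apply mul_left_cancel₀ hgZ
        linear_combination r2
    have hgz : g * ht z ≤ A := by
      obtain ⟨k, hk⟩ := exists_ht (by norm_num) z
      refine le_trans ?_ hh
      have h1 := le_ht' x k
      rw [hz k, abs_mul, hk, Nat.abs_cast] at h1
      exact_mod_cast h1
    have hz1 := ht_pos (prim_ne hzp)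
    rw [mem_biUnion]
    refine ⟨g, ?_, ?_⟩
    · rw [mem_Icc]
      exact ⟨hg, le_trans (Nat.le_mul_of_pos_right _ hz1) hgz⟩
    · rw [mem_image]
      refine ⟨z, ?_, ?_⟩
      · rw [mem_FP]
        refine ⟨?_, hzp, hzI⟩
        rw [Nat.le_div_iff_mul_le (by omega)]
        linarith
      · funext k
        rw [hz k]
  have hcard : (S.card : ℝ) ≤ 1 + ∑ d ∈ Finset.Icc 1 A, ((FP y (A / d)).card : ℝ) := by
    have h1 := Finset.card_le_card hcov
    have h2 := Finset.card_union_le {(0 : Fin 4 → ℤ)} ((Finset.Icc 1 A).biUnion fun d =>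
      (FP y (A / d)).image fun x k => (d : ℤ) * x k)
    have h3 : ((Finset.Icc 1 A).biUnion fun d =>
        (FP y (A / d)).image fun x k => (d : ℤ) * x k).card ≤
        ∑ d ∈ Finset.Icc 1 A, (FP y (A / d)).card :=
      Finset.card_biUnion_le.trans (Finset.sum_le_sum fun d _ => Finset.card_image_le)
    rw [card_singleton] at h2
    have h4 : S.card ≤ 1 + ∑ d ∈ Finset.Icc 1 A, (FP y (A / d)).card := by omega
    exact_mod_cast h4
  set D : ℕ := 25088 with hD
  have hsplit := Finset.sum_filter_add_sum_filter_not (Finset.Icc 1 A) (fun d => D < d)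
    (fun d => ((FP y (A / d)).card : ℝ))
  have hsmall : ∑ d ∈ (Finset.Icc 1 A).filter (fun d => ¬ D < d), ((FP y (A / d)).card : ℝ) ≤
      D * (FP y A).card := by
    calc ∑ d ∈ (Finset.Icc 1 A).filter (fun d => ¬ D < d), ((FP y (A / d)).card : ℝ)
        ≤ ∑ d ∈ (Finset.Icc 1 A).filter (fun d => ¬ D < d), ((FP y A).card : ℝ) := by
          refine Finset.sum_le_sum fun d _ => ?_
          exact_mod_cast Finset.card_le_card (FP_mono (Nat.div_le_self A d))
      _ = ((Finset.Icc 1 A).filter (fun d => ¬ D < d)).card * ((FP y A).card : ℝ) := by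
          rw [Finset.sum_const, nsmul_eq_mul]
      _ ≤ D * (FP y A).card := by
          have h1 : (Finset.Icc 1 A).filter (fun d => ¬ D < d) ⊆ Finset.Icc 1 D := by
            intro d hd
            rw [mem_filter, mem_Icc] at hd
            rw [mem_Icc]
            omega
          have h2 := Finset.card_le_card h1
          rw [Nat.card_Icc, Nat.add_sub_cancel] at h2
          have h3 : (((Finset.Icc 1 A).filter (fun d => ¬ D < d)).card : ℝ) ≤ D := by
            exact_mod_cast h2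
          gcongr
  have hlarge : ∑ d ∈ (Finset.Icc 1 A).filter (fun d => D < d), ((FP y (A / d)).card : ℝ) ≤
      4 * A + 128 * (A : ℝ) ^ 2 / (B : ℝ) ^ 2 * (1 / D) := by
    have h1 : ∀ d ∈ (Finset.Icc 1 A).filter (fun d => D < d), ((FP y (A / d)).card : ℝ) ≤
        4 + 128 * (A : ℝ) ^ 2 / (B : ℝ) ^ 2 * (1 / (d : ℝ) ^ 2) := by
      intro d hd
      rw [mem_filter, mem_Icc] at hd
      have hd0 : (0 : ℝ) < d := by exact_mod_cast hd.1.1
      have h2 := lat_count hyp (A / d) ((Nat.one_le_div_iff (by omega)).2 hd.1.2) (FP y (A / d))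
        (fun x hx => by
          rw [mem_FP] at hx
          exact ⟨hx.2.1, hx.2.2, hx.1⟩)
      refine h2.trans ?_
      have h3 : (B : ℝ) ≤ 2 * ht y := by exact_mod_cast hy'
      have h4 : (0 : ℝ) < ht y := by linarith
      have h5 : ((A / d : ℕ) : ℝ) ≤ (A : ℝ) / d := Nat.cast_div_le
      have h6 : 32 * ((A / d : ℕ) : ℝ) ^ 2 / (ht y : ℝ) ^ 2 ≤
          32 * ((A : ℝ) / d) ^ 2 / (B / 2 : ℝ) ^ 2 := by
        gcongr
        linarith
      have h7 : 32 * ((A : ℝ) / d) ^ 2 / (B / 2 : ℝ) ^ 2 =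
          128 * (A : ℝ) ^ 2 / (B : ℝ) ^ 2 * (1 / (d : ℝ) ^ 2) := by
        field_simp
        norm_num
      linarith
    calc ∑ d ∈ (Finset.Icc 1 A).filter (fun d => D < d), ((FP y (A / d)).card : ℝ)
        ≤ ∑ d ∈ (Finset.Icc 1 A).filter (fun d => D < d),
            (4 + 128 * (A : ℝ) ^ 2 / (B : ℝ) ^ 2 * (1 / (d : ℝ) ^ 2)) := Finset.sum_le_sum h1
      _ = 4 * ((Finset.Icc 1 A).filter (fun d => D < d)).card +
            128 * (A : ℝ) ^ 2 / (B : ℝ) ^ 2 *
              ∑ d ∈ (Finset.Icc 1 A).filter (fun d => D < d), (1 / (d : ℝ) ^ 2) := by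
          rw [Finset.sum_add_distrib, Finset.sum_const, ← Finset.mul_sum, nsmul_eq_mul]
          ring
      _ ≤ 4 * A + 128 * (A : ℝ) ^ 2 / (B : ℝ) ^ 2 * (1 / D) := by
          have h2 : (((Finset.Icc 1 A).filter (fun d => D < d)).card : ℝ) ≤ A := by
            have := Finset.card_le_card (Finset.filter_subset (fun d => D < d) (Finset.Icc 1 A))
            rw [Nat.card_Icc, Nat.add_sub_cancel] at this
            exact_mod_cast this
          have h3 := sum_tail D A (by norm_num)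
          gcongr
  have hAB' : 980 * (B : ℝ) ^ 2 ≤ A := by exact_mod_cast hAB
  -- conclusion
  set N := ((FP y A).card : ℝ) with hN
  have hBp : (0 : ℝ) < (B : ℝ) ^ 2 := by positivity
  have htot : (S.card : ℝ) ≤ 1 + (4 * A + 128 * (A : ℝ) ^ 2 / (B : ℝ) ^ 2 * (1 / D) + D * N) := by
    linarith
  have h8 : (A : ℝ) ^ 2 ≤ 49 * (B : ℝ) ^ 2 *
      (1 + (4 * A + 128 * (A : ℝ) ^ 2 / (B : ℝ) ^ 2 * (1 / D) + D * N)) :=
    hSc.trans (by gcongr)
  have h9 : 49 * (B : ℝ) ^ 2 *
      (1 + (4 * A + 128 * (A : ℝ) ^ 2 / (B : ℝ) ^ 2 * (1 / D) + D * N)) =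
      49 * (B : ℝ) ^ 2 * (1 + 4 * A) + (A : ℝ) ^ 2 / 4 + 1229312 * (B : ℝ) ^ 2 * N := by
    rw [hD]
    push_cast
    field_simp
    ring
  rw [h9] at h8
  have h10 : 49 * (B : ℝ) ^ 2 * (1 + 4 * A) ≤ (A : ℝ) ^ 2 / 4 := by
    have h11 : 49 * (B : ℝ) ^ 2 * (1 + 4 * A) ≤ 49 * (B : ℝ) ^ 2 * (5 * A) := by
      gcongr
      linarith
    nlinarith
  nlinarith

theorem rep_or {m : ℕ} {v : Fin m → ℤ} (h : Prim v) : Rep v ∨ Rep (-v) := by
  classical
  have hne : (Finset.univ.filter fun i => v i ≠ 0).Nonempty := by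
    by_contra hc
    rw [Finset.not_nonempty_iff_eq_empty] at hc
    apply prim_ne h
    funext i
    by_contra hi
    have hi' : v i ≠ 0 := hi
    have : i ∈ Finset.univ.filter fun i => v i ≠ 0 := by simp [hi']
    rw [hc] at this
    simp at this
  set i := (Finset.univ.filter fun i => v i ≠ 0).min' hne with hi
  have hi0 : v i ≠ 0 := (mem_filter.1 (Finset.min'_mem _ hne)).2
  have hlt : ∀ j < i, v j = 0 := by
    intro j hj
    by_contra hc
    have : i ≤ j := Finset.min'_le _ j (by simp [hc])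
    omega
  rcases lt_or_gt_of_ne hi0 with h1 | h1
  · right
    refine ⟨prim_gcd (prim_neg h), i, ?_, ?_⟩
    · simpa using h1
    · intro j hj
      simp [hlt j hj]
  · left
    exact ⟨prim_gcd h, i, h1, hlt⟩

theorem rep_neg {m : ℕ} {v : Fin m → ℤ} (h : Rep v) (h' : Rep (-v)) : False := by
  obtain ⟨-, i, hi, hi'⟩ := h
  obtain ⟨-, j, hj, hj'⟩ := h'
  rcases lt_trichotomy i j with h1 | h1 | h1
  · have := hj' i h1
    simp only [Pi.neg_apply, neg_eq_zero] at this
    omega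
  · rw [h1] at hi
    simp only [Pi.neg_apply] at hj
    omega
  · have := hi' j h1
    simp only [Pi.neg_apply] at hj
    omega

open Classical in
/-- On the twisted cubic there are at most two points of the line. -/
theorem on_cubic {y : Fin 3 → ℤ} (hy0 : y 0 ≠ 0) (S : Finset (Fin 4 → ℤ))
    (hS : ∀ x ∈ S, Rep x ∧ Inc x y ∧ hes x = 0) : S.card ≤ 2 := by
  set F : Polynomial ℚ := Polynomial.C (y 0 : ℚ) * Polynomial.X ^ 2 +
    Polynomial.C (y 1 : ℚ) * Polynomial.X + Polynomial.C (y 2 : ℚ) with hF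
  have hy0' : (y 0 : ℚ) ≠ 0 := by exact_mod_cast hy0
  have hdeg : F.natDegree = 2 := by
    rw [hF]
    exact Polynomial.natDegree_quadratic hy0'
  have hF0 : F ≠ 0 := by
    intro h
    rw [h] at hdeg
    simp at hdeg
  have hx3 : ∀ x ∈ S, x 3 ≠ 0 ∧ x 0 * x 3 = x 1 * x 2 ∧ x 1 * x 3 = x 2 ^ 2 := by
    intro x hx
    obtain ⟨hr, ⟨r1, r2⟩, hh⟩ := hS x hx
    have e0 := congrFun hh 0
    have e1 := congrFun hh 1
    have e2 := congrFun hh 2
    simp only [hes, Matrix.cons_val, Pi.zero_apply] at e0 e1 e2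
    refine ⟨?_, by linarith, by linarith⟩
    intro h3
    rw [h3] at e0
    have h2 : x 2 = 0 := by
      have : x 2 ^ 2 = 0 := by linarith
      exact pow_eq_zero_iff (two_ne_zero) |>.1 this
    rw [h2, h3] at r2
    have h1 : x 1 = 0 := by
      have : x 1 * y 0 = 0 := by linarith
      exact (mul_eq_zero.1 this).resolve_right hy0
    rw [h1, h2] at r1
    have h0 : x 0 = 0 := by
      have : x 0 * y 0 = 0 := by linarith
      exact (mul_eq_zero.1 this).resolve_right hy0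
    apply prim_ne (rep_prim hr)
    funext k
    fin_cases k
    · exact h0
    · exact h1
    · exact h2
    · exact h3
  have hmaps : ∀ x ∈ S, (x 2 : ℚ) / x 3 ∈ F.roots.toFinset := by
    intro x hx
    obtain ⟨h3, h03, h13⟩ := hx3 x hx
    obtain ⟨hr, ⟨r1, r2⟩, -⟩ := hS x hx
    have h3' : (x 3 : ℚ) ≠ 0 := by exact_mod_cast h3
    rw [Multiset.mem_toFinset, Polynomial.mem_roots hF0, Polynomial.IsRoot.def, hF]
    simp only [Polynomial.eval_add, Polynomial.eval_mul, Polynomial.eval_C, Polynomial.eval_pow,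
      Polynomial.eval_X]
    have h4 : y 0 * x 2 ^ 2 + y 1 * (x 2 * x 3) + y 2 * x 3 ^ 2 = 0 := by
      linear_combination x 3 * r2 - y 0 * h13
    have h5 : (y 0 : ℚ) * x 2 ^ 2 + y 1 * (x 2 * x 3) + y 2 * x 3 ^ 2 = 0 := by
      exact_mod_cast h4
    field_simp
    linear_combination h5
  have hinj : Set.InjOn (fun x : Fin 4 → ℤ => (x 2 : ℚ) / x 3) ↑S := by
    intro x hx z hz hxz
    obtain ⟨h3, h03, h13⟩ := hx3 x hx
    obtain ⟨g3, g03, g13⟩ := hx3 z hz
    have h3' : (x 3 : ℚ) ≠ 0 := by exact_mod_cast h3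
    have g3' : (z 3 : ℚ) ≠ 0 := by exact_mod_cast g3
    simp only at hxz
    rw [div_eq_div_iff h3' g3'] at hxz
    have k2 : x 2 * z 3 = z 2 * x 3 := by exact_mod_cast hxz
    have k1 : z 3 * x 1 = x 3 * z 1 := by
      have : (x 3 * z 3) * (z 3 * x 1) = (x 3 * z 3) * (x 3 * z 1) := by
        linear_combination z 3 ^ 2 * h13 - x 3 ^ 2 * g13 + (x 2 * z 3 + z 2 * x 3) * k2
      exact mul_left_cancel₀ (mul_ne_zero h3 g3) this
    have k0 : z 3 * x 0 = x 3 * z 0 := by
      have : (x 3 * z 3) * (z 3 * x 0) = (x 3 * z 3) * (x 3 * z 0) := by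
        linear_combination z 3 ^ 2 * h03 - x 3 ^ 2 * g03 + z 3 * x 1 * k2 + z 2 * x 3 * k1
      exact mul_left_cancel₀ (mul_ne_zero h3 g3) this
    have hp := prop_prim (rep_prim (hS x hx).1) (rep_prim (hS z hz).1) (s := z 3) (t := x 3)
      (by
        intro k
        fin_cases k
        · exact k0
        · exact k1
        · show z 3 * x 2 = x 3 * z 2
          linarith
        · show z 3 * x 3 = x 3 * z 3
          ring) h3
    rcases hp with h | h
    · exact h.symm
    · exfalso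
      have h1 := (hS z hz).1
      rw [h] at h1
      exact rep_neg (hS x hx).1 h1
  calc S.card ≤ F.roots.toFinset.card := Finset.card_le_card_of_injOn _ hmaps hinj
    _ ≤ F.roots.card := Multiset.toFinset_card_le _
    _ ≤ F.natDegree := Polynomial.card_roots' F
    _ = 2 := hdeg

open Classical in
/-- Many points for given `y`. -/
theorem many_pts {y : Fin 3 → ℤ} (hyp : Prim y) (hy0 : y 0 ≠ 0) {A B : ℕ} (hB : 5 ≤ B)
    (hy : ht y ≤ B) (hy' : B ≤ 2 * ht y) (hAB : 980 * B ^ 2 ≤ A) :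
    (A : ℝ) ^ 2 ≤ 9834496 * (B : ℝ) ^ 2 *
      ((FP y A).filter fun x => Rep x ∧ hes x ≠ 0).card := by
  have h1 := many_prim hyp (by omega) hy hy' hAB
  set G := (FP y A).filter fun x => Rep x ∧ hes x ≠ 0 with hG
  set R := (FP y A).filter fun x => Rep x with hR
  set Z := (FP y A).filter fun x => Rep x ∧ hes x = 0 with hZ
  have h2 : (FP y A) ⊆ R ∪ R.image fun x => -x := by
    intro x hx
    rw [mem_union]
    have hx' := mem_FP.1 hx
    rcases rep_or hx'.2.1 with h | h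
    · left
      rw [hR, mem_filter]
      exact ⟨hx, h⟩
    · right
      rw [mem_image]
      refine ⟨-x, ?_, neg_neg x⟩
      rw [hR, mem_filter, mem_FP]
      refine ⟨⟨?_, prim_neg hx'.2.1, ?_⟩, h⟩
      · apply ht_le
        intro i
        rw [Pi.neg_apply, abs_neg]
        exact (le_ht' x i).trans (by exact_mod_cast hx'.1)
      · obtain ⟨r1, r2⟩ := hx'.2.2
        constructor
        · show -x 0 * y 0 + -x 1 * y 1 + -x 2 * y 2 = 0
          linear_combination -r1
        · show -x 1 * y 0 + -x 2 * y 1 + -x 3 * y 2 = 0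
          linear_combination -r2
  have h3 : R ⊆ G ∪ Z := by
    intro x hx
    rw [hR, mem_filter] at hx
    rw [mem_union, hG, hZ, mem_filter, mem_filter]
    by_cases h : hes x = 0
    · right; exact ⟨hx.1, hx.2, h⟩
    · left; exact ⟨hx.1, hx.2, h⟩
  have h4 : Z.card ≤ 2 := on_cubic hy0 Z (by
    intro x hx
    rw [hZ, mem_filter, mem_FP] at hx
    exact ⟨hx.2.1, hx.1.2.2, hx.2.2⟩)
  have h5 : (FP y A).card ≤ 2 * (G.card + 2) := by
    have e1 := Finset.card_le_card h2
    have e2 := Finset.card_union_le R (R.image fun x => -x)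
    have e3 : (R.image fun x => -x).card ≤ R.card := Finset.card_image_le
    have e4 := Finset.card_le_card h3
    have e5 := Finset.card_union_le G Z
    omega
  have h6 : ((FP y A).card : ℝ) ≤ 2 * (G.card + 2) := by exact_mod_cast h5
  have hB' : (5 : ℝ) ≤ B := by exact_mod_cast hB
  have hAB' : 980 * (B : ℝ) ^ 2 ≤ A := by exact_mod_cast hAB
  have hB2 : (25 : ℝ) ≤ (B : ℝ) ^ 2 := by nlinarith
  -- `4 * 2458624 B² ≤ A² / 2`
  have h7 : 2 * (2458624 * (B : ℝ) ^ 2 * 4) ≤ (A : ℝ) ^ 2 := by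
    have e1 : (980 * (B : ℝ) ^ 2) ^ 2 ≤ (A : ℝ) ^ 2 := by gcongr
    nlinarith
  have h8 : (A : ℝ) ^ 2 ≤ 2458624 * (B : ℝ) ^ 2 * (2 * (G.card + 2)) :=
    h1.trans (by gcongr)
  nlinarith

end Pool.Agent.H548.TC
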