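import Mathlib
import Pool.Agent.H548.TC.Low

/-! The order of magnitude. -/

namespace Pool.Agent.H548.TC

open Finset
open Pool.Agent.H548.WM (ht bx le_ht le_ht' ht_le exists_ht mem_bx card_bx_le dy dy_spec ht_pos
  Rep)

open Classical in
/-- Many points in a dyadic box. -/
theorem box_low : ∃ (c : ℝ) (K : ℕ), 0 < c ∧ ∀ A B : ℕ, K ≤ B → 980 * B ^ 2 ≤ A →
    ∃ P : Finset ((Fin 4 → ℤ) × (Fin 3 → ℤ)),
      (∀ t ∈ P, Rep t.1 ∧ Rep t.2 ∧ Inc t.1 t.2 ∧ hes t.1 ≠ 0 ∧ ht t.1 ≤ A ∧ ht t.2 ≤ B ∧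
        B < 2 * ht t.2) ∧ c * ((A : ℝ) ^ 2 * B) ≤ P.card := by
  obtain ⟨c, K, hc, h⟩ := many_y
  refine ⟨c / 9834496, K + 5, by positivity, ?_⟩
  intro A B hB hAB
  obtain ⟨Y, hY, hYc⟩ := h B (by omega)
  have hB' : (0 : ℝ) < B := by exact_mod_cast (by omega : 0 < B)
  set G : (Fin 3 → ℤ) → Finset (Fin 4 → ℤ) := fun y =>
    (FP y A).filter fun x => Rep x ∧ hes x ≠ 0 with hG
  set P := Y.biUnion fun y => (G y).image fun x => (x, y) with hP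
  refine ⟨P, ?_, ?_⟩
  · rintro ⟨x, y⟩ ht'
    rw [hP, mem_biUnion] at ht'
    obtain ⟨y', hy', hx'⟩ := ht'
    rw [mem_image] at hx'
    obtain ⟨x', hx'', heq⟩ := hx'
    obtain ⟨rfl, rfl⟩ := Prod.mk.injEq _ _ _ _ ▸ heq
    obtain ⟨h1, h2, h3, h4, -⟩ := hY y' hy'
    simp only [hG] at hx''
    rw [mem_filter, mem_FP] at hx''
    exact ⟨hx''.2.1, h1, hx''.1.2.2, hx''.2.2, hx''.1.1, h3, h4⟩
  · have hdisj : ∀ y ∈ Y, ∀ z ∈ Y, y ≠ z → Disjoint ((G y).image fun x => (x, y))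
        ((G z).image fun x => (x, z)) := by
      intro y _ z _ hyz
      rw [Finset.disjoint_left]
      intro t ht1 ht2
      obtain ⟨x, -, rfl⟩ := mem_image.1 ht1
      obtain ⟨x', -, h⟩ := mem_image.1 ht2
      exact hyz (congrArg Prod.snd h).symm
    have hcard : P.card = ∑ y ∈ Y, (G y).card := by
      rw [hP, Finset.card_biUnion hdisj]
      refine Finset.sum_congr rfl fun y _ => ?_
      apply Finset.card_image_of_injective
      intro x x' h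
      exact congrArg Prod.fst h
    have h1 : ∀ y ∈ Y, (A : ℝ) ^ 2 / (9834496 * (B : ℝ) ^ 2) ≤ ((G y).card : ℝ) := by
      intro y hy
      obtain ⟨-, h2, h3, h4, h5⟩ := hY y hy
      rw [div_le_iff₀ (by positivity)]
      have := many_pts h2 h5 (by omega) h3 h4.le hAB
      simp only [hG]
      linarith
    calc c / 9834496 * ((A : ℝ) ^ 2 * B) =
          (c * (B : ℝ) ^ 3) * ((A : ℝ) ^ 2 / (9834496 * (B : ℝ) ^ 2)) := by
          field_simp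
      _ ≤ (Y.card : ℝ) * ((A : ℝ) ^ 2 / (9834496 * (B : ℝ) ^ 2)) := by gcongr
      _ = ∑ y ∈ Y, (A : ℝ) ^ 2 / (9834496 * (B : ℝ) ^ 2) := by
          rw [Finset.sum_const, nsmul_eq_mul]
      _ ≤ ∑ y ∈ Y, ((G y).card : ℝ) := Finset.sum_le_sum h1
      _ = (P.card : ℝ) := by rw [hcard]; push_cast; rfl

open Classical in
/-- The lower bound for integral `T`. -/
theorem lower_nat : ∃ (c : ℝ) (L₀ : ℕ), 0 < c ∧ 1 ≤ L₀ ∧ ∀ N : ℕ, L₀ ≤ Nat.log 2 N →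
    ∃ P : Finset ((Fin 4 → ℤ) × (Fin 3 → ℤ)),
      (∀ t ∈ P, Rep t.1 ∧ Rep t.2 ∧ Inc t.1 t.2 ∧ hes t.1 ≠ 0 ∧ ht t.1 ^ 2 * ht t.2 ≤ N) ∧
      c * (N * (Nat.log 2 N : ℕ)) ≤ P.card := by
  obtain ⟨c, K, hc, h⟩ := box_low
  refine ⟨c / 40, 10 * (K + 4), by positivity, by omega, ?_⟩
  intro N hN
  set L := Nat.log 2 N with hL
  have hN0 : N ≠ 0 := by
    rintro rfl
    simp at hL
    omega
  have hLN : 2 ^ L ≤ N := Nat.pow_log_le_self 2 hN0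
  set J := Finset.Icc K (L / 5 - 4) with hJ
  have hcond : ∀ j ∈ J, 980 * (2 ^ j) ^ 2 ≤ Nat.sqrt (N / 2 ^ j) := by
    intro j hj
    rw [hJ, mem_Icc] at hj
    rw [Nat.le_sqrt', Nat.le_div_iff_mul_le (by positivity)]
    calc (980 * (2 ^ j) ^ 2) ^ 2 * 2 ^ j = 960400 * 2 ^ (5 * j) := by ring
      _ ≤ 2 ^ 20 * 2 ^ (5 * j) := by
          apply Nat.mul_le_mul_right
          norm_num
      _ = 2 ^ (20 + 5 * j) := by rw [pow_add]
      _ ≤ 2 ^ L := Nat.pow_le_pow_right (by norm_num) (by omega)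
      _ ≤ N := hLN
  have hKj : ∀ j ∈ J, K ≤ 2 ^ j := by
    intro j hj
    rw [hJ, mem_Icc] at hj
    exact (hj.1.trans (Nat.lt_two_pow_self).le)
  choose! Pj hPj hPc using fun (j : ℕ) (hj : j ∈ J) => h _ _ (hKj j hj) (hcond j hj)
  set P := J.biUnion Pj with hP
  refine ⟨P, ?_, ?_⟩
  · intro t ht'
    rw [hP, mem_biUnion] at ht'
    obtain ⟨j, hj, htj⟩ := ht'
    obtain ⟨h1, h2, h3, h4, h5, h6, -⟩ := hPj j hj t htj
    refine ⟨h1, h2, h3, h4, ?_⟩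
    calc ht t.1 ^ 2 * ht t.2 ≤ (Nat.sqrt (N / 2 ^ j)) ^ 2 * 2 ^ j := by gcongr
      _ ≤ (N / 2 ^ j) * 2 ^ j := Nat.mul_le_mul_right _ (Nat.sqrt_le' _)
      _ ≤ N := Nat.div_mul_le_self _ _
  · have hdisj : ∀ i ∈ J, ∀ j ∈ J, i ≠ j → Disjoint (Pj i) (Pj j) := by
      have key : ∀ i ∈ J, ∀ j ∈ J, i < j → Disjoint (Pj i) (Pj j) := by
        intro i hi j hj hij
        rw [Finset.disjoint_left]
        intro t ht1 ht2
        obtain ⟨-, -, -, -, -, h6, -⟩ := hPj i hi t ht1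
        obtain ⟨-, -, -, -, -, -, h7⟩ := hPj j hj t ht2
        have h8 : 2 ^ (i + 1) ≤ 2 ^ j := Nat.pow_le_pow_right (by norm_num) hij
        rw [pow_succ] at h8
        omega
      intro i hi j hj hij
      rcases lt_or_gt_of_ne hij with h1 | h1
      · exact key i hi j hj h1
      · exact (key j hj i hi h1).symm
    have hcard : P.card = ∑ j ∈ J, (Pj j).card := by
      rw [hP, Finset.card_biUnion hdisj]
    have h1 : ∀ j ∈ J, c * (N / 4) ≤ ((Pj j).card : ℝ) := by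
      intro j hj
      refine le_trans ?_ (hPc j hj)
      have hs := hcond j hj
      set s := Nat.sqrt (N / 2 ^ j) with hsdef
      have hs1 : 1 ≤ s := by
        have : 1 ≤ (2 ^ j) ^ 2 := Nat.one_le_pow _ _ Nat.one_le_two_pow
        omega
      have h2 : N / 2 ^ j + 1 ≤ (s + 1) ^ 2 := Nat.lt_succ_sqrt' _
      have h3 : N < 2 ^ j * (N / 2 ^ j + 1) := Nat.lt_mul_div_succ N (by positivity)
      have h4 : N ≤ 2 ^ j * (s + 1) ^ 2 := h3.le.trans (Nat.mul_le_mul_left _ h2)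
      have h5 : (N : ℝ) ≤ 2 ^ j * ((s : ℝ) + 1) ^ 2 := by exact_mod_cast h4
      have hs1' : (1 : ℝ) ≤ s := by exact_mod_cast hs1
      have h6 : ((s : ℝ) + 1) ^ 2 ≤ 4 * (s : ℝ) ^ 2 := by nlinarith
      have h7 : (0 : ℝ) < 2 ^ j := by positivity
      have h8 : (N : ℝ) / 4 ≤ (s : ℝ) ^ 2 * ((2 ^ j : ℕ) : ℝ) := by
        push_cast
        nlinarith
      gcongr
    have hJc : ((L : ℕ) : ℝ) / 10 ≤ (J.card : ℝ) := by
      rw [hJ, Nat.card_Icc]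
      have h2 : L ≤ 10 * (L / 5 - 4 + 1 - K) := by omega
      have h3 : (L : ℝ) ≤ 10 * ((L / 5 - 4 + 1 - K : ℕ) : ℝ) := by exact_mod_cast h2
      linarith
    calc c / 40 * ((N : ℝ) * (L : ℕ)) = ((L : ℕ) : ℝ) / 10 * (c * (N / 4)) := by ring
      _ ≤ (J.card : ℝ) * (c * (N / 4)) := by gcongr
      _ = ∑ j ∈ J, c * ((N : ℝ) / 4) := by rw [Finset.sum_const, nsmul_eq_mul]
      _ ≤ ∑ j ∈ J, ((Pj j).card : ℝ) := Finset.sum_le_sum h1
      _ = (P.card : ℝ) := by rw [hcard]; push_cast; rfl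

/-- The order of magnitude of the number of points of bounded anticanonical height. -/
theorem order : ∃ c C T₀ : ℝ, 0 < c ∧ 0 < C ∧ ∀ T : ℝ, T₀ ≤ T →
    {t : (Fin 4 → ℤ) × (Fin 3 → ℤ) | Rep t.1 ∧ Rep t.2 ∧ Inc t.1 t.2 ∧ hes t.1 ≠ 0 ∧
      (ht t.1 : ℝ) ^ 2 * (ht t.2 : ℝ) ≤ T}.Finite ∧
    c * T * Real.log T ≤
      ({t : (Fin 4 → ℤ) × (Fin 3 → ℤ) | Rep t.1 ∧ Rep t.2 ∧ Inc t.1 t.2 ∧ hes t.1 ≠ 0 ∧
        (ht t.1 : ℝ) ^ 2 * (ht t.2 : ℝ) ≤ T}.ncard : ℝ) ∧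
    ({t : (Fin 4 → ℤ) × (Fin 3 → ℤ) | Rep t.1 ∧ Rep t.2 ∧ Inc t.1 t.2 ∧ hes t.1 ≠ 0 ∧
      (ht t.1 : ℝ) ^ 2 * (ht t.2 : ℝ) ≤ T}.ncard : ℝ) ≤ C * T * Real.log T := by
  obtain ⟨C, hC⟩ := upper ![2, 1] (by simp) (by simp)
  obtain ⟨c, L₀, hc, hL₀, hlow⟩ := lower_nat
  have hfuj : fuj ![2, 1] = 1 := by
    rw [fuj_eq _ (by simp) (by simp)]
    norm_num
  refine ⟨c / 6, 2 * |C| + 1, 2 ^ (L₀ + 2) + 3, by positivity, by positivity, ?_⟩
  intro T hT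
  have h2L : (0 : ℝ) < 2 ^ (L₀ + 2) := by positivity
  have hT3 : (3 : ℝ) ≤ T := by linarith
  have hT0 : 0 < T := by linarith
  have hlog : 1 ≤ Real.log T := by
    rw [Real.le_log_iff_exp_le hT0]
    exact (Real.exp_one_lt_three.le).trans hT3
  have hset : {t : (Fin 4 → ℤ) × (Fin 3 → ℤ) | Rep t.1 ∧ Rep t.2 ∧ Inc t.1 t.2 ∧ hes t.1 ≠ 0 ∧
      (ht t.1 : ℝ) ^ 2 * (ht t.2 : ℝ) ≤ T} =
      {t : (Fin 4 → ℤ) × (Fin 3 → ℤ) | Rep t.1 ∧ Rep t.2 ∧ Inc t.1 t.2 ∧ hes t.1 ≠ 0 ∧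
        (ht t.1 : ℝ) ^ (![2, 1] : Fin 2 → ℝ) 0 * (ht t.2 : ℝ) ^ (![2, 1] : Fin 2 → ℝ) 1 ≤ T} := by
    ext t
    simp only [Matrix.cons_val_zero, Matrix.cons_val_one, Matrix.cons_val_fin_one, Real.rpow_one,
      Real.rpow_two]
  obtain ⟨hfin, hup⟩ := hC T (by linarith)
  rw [← hset, hfuj, Real.rpow_one] at hup
  rw [← hset] at hfin
  refine ⟨hfin, ?_, ?_⟩
  · set N := ⌊T⌋₊ with hN
    have hNT : (N : ℝ) ≤ T := Nat.floor_le hT0.le
    have hTN : T < N + 1 := Nat.lt_floor_add_one T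
    have hNL : L₀ ≤ Nat.log 2 N := by
      apply Nat.le_log_of_pow_le (by norm_num)
      apply Nat.le_floor
      push_cast
      have : (2 : ℝ) ^ L₀ ≤ 2 ^ (L₀ + 2) := pow_le_pow_right₀ (by norm_num) (by omega)
      linarith
    obtain ⟨P, hP, hPc⟩ := hlow N hNL
    set L := Nat.log 2 N with hL
    have hsub : (↑P : Set ((Fin 4 → ℤ) × (Fin 3 → ℤ))) ⊆
        {t : (Fin 4 → ℤ) × (Fin 3 → ℤ) | Rep t.1 ∧ Rep t.2 ∧ Inc t.1 t.2 ∧ hes t.1 ≠ 0 ∧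
          (ht t.1 : ℝ) ^ 2 * (ht t.2 : ℝ) ≤ T} := by
      intro t ht'
      obtain ⟨h1, h2, h3, h4, h5⟩ := hP t ht'
      refine ⟨h1, h2, h3, h4, ?_⟩
      have : ((ht t.1 : ℝ) ^ 2 * (ht t.2 : ℝ)) ≤ N := by exact_mod_cast h5
      linarith
    have h6 := Set.ncard_le_ncard hsub hfin
    rw [Set.ncard_coe_finset] at h6
    have h7 : (P.card : ℝ) ≤ ({t : (Fin 4 → ℤ) × (Fin 3 → ℤ) | Rep t.1 ∧ Rep t.2 ∧ Inc t.1 t.2 ∧
        hes t.1 ≠ 0 ∧ (ht t.1 : ℝ) ^ 2 * (ht t.2 : ℝ) ≤ T}.ncard : ℝ) := by exact_mod_cast h6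
    refine le_trans ?_ (hPc.trans h7)
    have hLpos : (1 : ℝ) ≤ (L : ℕ) := by exact_mod_cast hL₀.trans hNL
    have hlogT : Real.log T ≤ 3 * (L : ℕ) := by
      have h8 : N < 2 ^ (L + 1) := Nat.lt_pow_succ_log_self (by norm_num) N
      have h9 : (N : ℝ) + 1 ≤ 2 ^ (L + 1) := by exact_mod_cast h8
      have h10 : Real.log T ≤ Real.log (2 ^ (L + 1)) :=
        Real.log_le_log hT0 (by linarith)
      rw [Real.log_pow] at h10
      have h11 : Real.log 2 ≤ 1 := by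
        have := Real.log_two_lt_d9
        linarith
      push_cast at h10
      have h12 : ((L : ℝ) + 1) * Real.log 2 ≤ ((L : ℝ) + 1) * 1 := by gcongr
      linarith
    have hN2 : T / 2 ≤ N := by linarith
    calc c / 6 * T * Real.log T ≤ c / 6 * (2 * N) * (3 * (L : ℕ)) := by
          gcongr
          linarith
      _ = c * (N * (L : ℕ)) := by ring
  · refine hup.trans ?_
    have h1 : C * T * (1 + Real.log T) ≤ |C| * T * (2 * Real.log T) := by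
      have : C ≤ |C| := le_abs_self C
      gcongr
      linarith
    calc C * T * (1 + Real.log T) ≤ |C| * T * (2 * Real.log T) := h1
      _ ≤ (2 * |C| + 1) * T * Real.log T := by
          have : 0 ≤ T * Real.log T := by positivity
          nlinarith

end Pool.Agent.H548.TC
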